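import Pool.Agent.Lib.MP_2d8e53_nt.K.StmtsK95

set_option autoImplicit false

namespace Pool.Agent.Lib.MP_2d8e53_nt.K

open Finset Real Pool.Agent.Lib.MP_2d8e53_nt.W
open scoped Classical

/-- The product of the prime factors of `n` below `y`. -/
noncomputable def Sm95 (n : ℕ) (y : ℝ) : ℕ :=
  ∏ q ∈ n.primeFactors.filter (fun q : ℕ => ¬ y ≤ (q : ℝ)), q

theorem Lg_mul_Sm_95 (n : ℕ) (y : ℝ) (h : Squarefree n) : Lg n y * Sm95 n y = n := by
  unfold Lg Sm95
  rw [prod_filter_mul_prod_filter_not]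
  exact Nat.prod_primeFactors_of_squarefree h

theorem exists_large_95 (a : ℝ) (ha : 0 < a) (η : ℝ) (hη : 0 < η) :
    ∃ X₀ : ℕ, ∀ X : ℕ, X₀ ≤ X → log X ^ (1 - a) ≤ η * log X ∧ 1 ≤ log X := by
  have h1 : Filter.Tendsto (fun X : ℕ => log (X : ℝ)) Filter.atTop Filter.atTop :=
    tendsto_log_atTop.comp tendsto_natCast_atTop_atTop
  have h2 : Filter.Tendsto (fun X : ℕ => log (X : ℝ) ^ (-a)) Filter.atTop (nhds 0) :=
    (tendsto_rpow_neg_atTop ha).comp h1
  have h3 := (h2.eventually_le_const hη).and (h1.eventually_ge_atTop 1)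
  obtain ⟨X₀, hX₀⟩ := Filter.eventually_atTop.1 h3
  refine ⟨X₀, fun X hX => ?_⟩
  obtain ⟨h4, h5⟩ := hX₀ X hX
  refine ⟨?_, h5⟩
  have h6 : 0 < log (X : ℝ) := by linarith
  rw [sub_eq_add_neg, rpow_add h6, rpow_one]
  nlinarith

theorem stA_95 (hN : StN0) : StA := by
  intro θ δ η hθ hθδ hδ hη
  obtain ⟨X₁, h1⟩ := hN θ η hθ (by linarith) hη
  obtain ⟨X₂, h2⟩ := exists_large_95 (δ - θ) (by linarith) η hη
  refine ⟨max (max X₁ X₂) 1, fun X hX => ?_⟩
  have hX1 : X₁ ≤ X := (le_max_left _ _).trans ((le_max_left _ _).trans hX)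
  have hX2 : X₂ ≤ X := (le_max_right _ _).trans ((le_max_left _ _).trans hX)
  have hX3 : 1 ≤ X := (le_max_right _ _).trans hX
  have hXr : (1 : ℝ) ≤ X := by exact_mod_cast hX3
  have hX0 : (0 : ℝ) < X := by linarith
  obtain ⟨hL, hL1⟩ := h2 X hX2
  have hL0 : 0 < log (X : ℝ) := by linarith
  set y : ℝ := exp (log X ^ θ) with hy
  set N0 := (Icc 1 X).filter fun d => Squarefree d ∧
    (∀ p : ℕ, p.Prime → p ∣ d → y ≤ p) ∧ F d ≤ X with hN0
  have hcard : (((Icc 1 X).filter fun n => Rig n ∧ (n.primeFactors.card : ℝ) ≤ log X ^ (1 - δ) ∧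
      F (Lg n y) ≤ X).card : ℝ) ≤ ((N0 ×ˢ Icc 1 ⌊(X : ℝ) ^ η⌋₊).card : ℝ) := by
    norm_cast
    apply card_le_card_of_injOn (fun n => (Lg n y, Sm95 n y))
    · intro n hn
      rw [mem_coe, mem_filter, mem_Icc] at hn
      obtain ⟨⟨hn1, hnX⟩, hR, hc, hF⟩ := hn
      have hsq : Squarefree n := hR.2.2.1
      have hmul := Lg_mul_Sm_95 n y hsq
      have hn0 : n ≠ 0 := by omega
      have hLg0 : Lg n y ≠ 0 := by
        intro h; rw [h, zero_mul] at hmul; exact hn0 hmul.symm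
      have hSm0 : Sm95 n y ≠ 0 := by
        intro h; rw [h, mul_zero] at hmul; exact hn0 hmul.symm
      have hdvd : Lg n y ∣ n := Dvd.intro _ hmul
      rw [mem_coe, mem_product]
      constructor
      · rw [hN0, mem_filter, mem_Icc]
        refine ⟨⟨Nat.one_le_iff_ne_zero.2 hLg0, (Nat.le_of_dvd hn1 hdvd).trans hnX⟩,
          hsq.squarefree_of_dvd hdvd, ?_, hF⟩
        intro p hp hpd
        have : ∃ q ∈ n.primeFactors.filter (fun q : ℕ => y ≤ (q : ℝ)), p ∣ q := by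
          unfold Lg at hpd
          exact (Prime.dvd_finsetProd_iff hp.prime _).1 hpd
        obtain ⟨q, hq, hpq⟩ := this
        rw [mem_filter] at hq
        have hqp := Nat.prime_of_mem_primeFactors hq.1
        rw [(Nat.prime_dvd_prime_iff_eq hp hqp).1 hpq]
        exact hq.2
      · rw [mem_Icc]
        refine ⟨Nat.one_le_iff_ne_zero.2 hSm0, Nat.le_floor ?_⟩
        have hy0 : (1 : ℝ) ≤ y := by
          rw [hy]; exact one_le_exp (rpow_nonneg hL0.le _)
        have h3 : (Sm95 n y : ℝ) ≤ y ^ (n.primeFactors.card : ℝ) := by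
          unfold Sm95
          push_cast
          calc ∏ q ∈ n.primeFactors.filter (fun q : ℕ => ¬ y ≤ (q : ℝ)), (q : ℝ)
              ≤ ∏ q ∈ n.primeFactors.filter (fun q : ℕ => ¬ y ≤ (q : ℝ)), y := by
                apply prod_le_prod (fun q _ => Nat.cast_nonneg q)
                intro q hq
                exact (not_le.1 (mem_filter.1 hq).2).le
            _ = y ^ (n.primeFactors.filter (fun q : ℕ => ¬ y ≤ (q : ℝ))).card := by
                rw [prod_const]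
            _ ≤ y ^ n.primeFactors.card :=
                pow_le_pow_right₀ hy0 (card_filter_le _ _)
            _ = y ^ (n.primeFactors.card : ℝ) := (rpow_natCast _ _).symm
        refine h3.trans ?_
        calc y ^ (n.primeFactors.card : ℝ) ≤ y ^ (log X ^ (1 - δ)) :=
              rpow_le_rpow_of_exponent_le hy0 hc
          _ = exp (log X ^ (1 - (δ - θ))) := by
              rw [hy, ← exp_mul, ← rpow_add hL0]
              congr 2
              ring
          _ ≤ exp (η * log X) := exp_le_exp.2 hL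
          _ = (X : ℝ) ^ η := by rw [rpow_def_of_pos hX0, mul_comm]
    · intro n hn m hm hnm
      rw [mem_coe, mem_filter] at hn hm
      have h3 := Lg_mul_Sm_95 n y hn.2.1.2.2.1
      have h4 := Lg_mul_Sm_95 m y hm.2.1.2.2.1
      simp only [Prod.mk.injEq] at hnm
      rw [← h3, ← h4, hnm.1, hnm.2]
  refine hcard.trans ?_
  rw [card_product, Nat.card_Icc]
  push_cast
  have h5 := h1 X hX1
  rw [← hy, ← hN0] at h5
  have h6 : ((⌊(X : ℝ) ^ η⌋₊ + 1 - 1 : ℕ) : ℝ) ≤ (X : ℝ) ^ η := by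
    rw [Nat.add_sub_cancel]
    exact Nat.floor_le (rpow_nonneg hX0.le _)
  calc (N0.card : ℝ) * ((⌊(X : ℝ) ^ η⌋₊ + 1 - 1 : ℕ) : ℝ)
      ≤ (X : ℝ) ^ (1 - θ + η) * (X : ℝ) ^ η :=
        mul_le_mul h5 h6 (Nat.cast_nonneg _) (rpow_nonneg hX0.le _)
    _ = (X : ℝ) ^ (1 - θ + η + η) := (rpow_add hX0 _ _).symm
    _ ≤ (X : ℝ) ^ (1 - θ + 3 * η) := rpow_le_rpow_of_exponent_le hXr (by linarith)

end Pool.Agent.Lib.MP_2d8e53_nt.K
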