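import Pool.Agent.Lib.MP_2d8e53_nt.K.StmtsK95

set_option autoImplicit false

namespace Pool.Agent.Lib.MP_2d8e53_nt.K

open Finset Real Pool.Agent.Lib.MP_2d8e53_nt.W
open scoped Classical

theorem L1_pos_31 (d : ℕ) : 1 ≤ L1 d := by
  unfold L1
  rw [Nat.one_le_iff_ne_zero]
  intro h
  rw [Finset.lcm_eq_zero_iff] at h
  obtain ⟨p, hp, hp0⟩ := h
  have := (Nat.prime_of_mem_primeFactors hp).two_le
  omega

theorem L2_pos_31 (d : ℕ) : 1 ≤ L2 d := by
  unfold L2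
  rw [Nat.one_le_iff_ne_zero]
  intro h
  rw [Finset.lcm_eq_zero_iff] at h
  obtain ⟨p, hp, hp0⟩ := h
  omega

theorem ev_31 (η : ℝ) (hη : 0 < η) : ∃ X₀ : ℕ, ∀ X : ℕ, X₀ ≤ X →
    6 * (1 + log (X : ℝ)) ≤ (X : ℝ) ^ η := by
  have h1 : (fun x : ℝ => 6 * (1 + log x)) =o[Filter.atTop] fun x : ℝ => x ^ η := by
    apply Asymptotics.IsLittleO.const_mul_left
    apply Asymptotics.IsLittleO.add
    · exact (Asymptotics.isLittleO_const_left.2 (Or.inr
        (tendsto_norm_atTop_atTop.comp (tendsto_rpow_atTop hη))))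
    · exact isLittleO_log_rpow_atTop hη
  have h2 := (h1.bound (show (0 : ℝ) < 1 by norm_num)).and (Filter.eventually_ge_atTop (1 : ℝ))
  obtain ⟨A, hA⟩ := Filter.eventually_atTop.1 h2
  obtain ⟨N, hN⟩ := exists_nat_ge A
  refine ⟨N, fun X hX => ?_⟩
  have hx : A ≤ (X : ℝ) := hN.trans (by exact_mod_cast hX)
  obtain ⟨h3, h4⟩ := hA X hx
  rw [one_mul, Real.norm_of_nonneg, Real.norm_of_nonneg] at h3
  · exact h3
  · positivity
  · have := log_nonneg h4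
    positivity

theorem harm_31 (K : ℕ) : ∑ M ∈ Icc 1 K, ((M : ℝ))⁻¹ ≤ 1 + log K := by
  have h := harmonic_le_one_add_log K
  rw [harmonic_eq_sum_Icc] at h
  push_cast at h
  exact h

theorem stN0_31 (hR : StRan) : StN0 := by
  intro θ η hθ hθ2 hη
  obtain ⟨X₁, h1⟩ := hR θ (η / 2) hθ hθ2 (by linarith)
  obtain ⟨X₂, h2⟩ := ev_31 (η / 2) (by linarith)
  refine ⟨max (max X₁ X₂) 1, fun X hX => ?_⟩
  have hX1 : X₁ ≤ X := (le_max_left _ _).trans ((le_max_left _ _).trans hX)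
  have hX2 : X₂ ≤ X := (le_max_right _ _).trans ((le_max_left _ _).trans hX)
  have hX3 : 1 ≤ X := (le_max_right _ _).trans hX
  have hXr : (1 : ℝ) ≤ X := by exact_mod_cast hX3
  have hX0 : (0 : ℝ) < X := by linarith
  set σ : ℝ := 1 - θ + η / 2 with hσ
  set A : ℕ → Finset ℕ := fun M => (Icc 1 ⌊(X : ℝ) / (M : ℝ) ^ 2⌋₊).filter fun d => Squarefree d ∧
      ∀ p : ℕ, p.Prime → p ∣ d → exp (log X ^ θ) ≤ p ∧ p - 1 ∣ M with hA
  set B : ℕ → Finset ℕ := fun M => (Icc 1 ⌊(X : ℝ) / (M : ℝ) ^ 2⌋₊).filter fun d => Squarefree d ∧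
      ∀ p : ℕ, p.Prime → p ∣ d → exp (log X ^ θ) ≤ p ∧ p + 1 ∣ M with hB
  have hsub : ((Icc 1 X).filter fun d => Squarefree d ∧
      (∀ p : ℕ, p.Prime → p ∣ d → exp (log X ^ θ) ≤ p) ∧ F d ≤ X) ⊆
        (Icc 1 (Nat.sqrt X)).biUnion fun M => A M ∪ B M := by
    intro d hd
    rw [mem_filter, mem_Icc] at hd
    obtain ⟨⟨hd1, _⟩, hsq, hp, hF⟩ := hd
    have ha := L1_pos_31 d
    have hb := L2_pos_31 d
    have hd0 : d ≠ 0 := by omega
    have key : ∀ M : ℕ, 1 ≤ M → d * M * M ≤ X →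
        M ∈ Icc 1 (Nat.sqrt X) ∧ d ∈ Icc 1 ⌊(X : ℝ) / (M : ℝ) ^ 2⌋₊ := by
      intro M hM hdM
      refine ⟨?_, ?_⟩
      · rw [mem_Icc]
        refine ⟨hM, Nat.le_sqrt.2 ?_⟩
        calc M * M ≤ d * (M * M) := Nat.le_mul_of_pos_left _ hd1
          _ = d * M * M := by ring
          _ ≤ X := hdM
      · rw [mem_Icc]
        refine ⟨hd1, Nat.le_floor ?_⟩
        have hM0 : (0 : ℝ) < (M : ℝ) ^ 2 := by
          have : (0 : ℝ) < M := by exact_mod_cast hM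
          positivity
        rw [le_div_iff₀ hM0]
        have h3 : ((d * M * M : ℕ) : ℝ) ≤ X := by exact_mod_cast hdM
        push_cast at h3
        nlinarith
    rw [mem_biUnion]
    rcases le_total (L1 d) (L2 d) with h | h
    · have h4 : d * L1 d * L1 d ≤ X := by
        refine le_trans ?_ hF
        unfold F
        exact Nat.mul_le_mul_left _ h
      obtain ⟨h5, h6⟩ := key _ ha h4
      refine ⟨L1 d, h5, ?_⟩
      rw [mem_union]
      left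
      rw [hA]
      simp only [mem_filter]
      refine ⟨h6, hsq, fun p hpp hpd => ⟨hp p hpp hpd, ?_⟩⟩
      exact Finset.dvd_lcm (f := fun p => p - 1) (Nat.mem_primeFactors.2 ⟨hpp, hpd, hd0⟩)
    · have h4 : d * L2 d * L2 d ≤ X := by
        refine le_trans ?_ hF
        unfold F
        exact Nat.mul_le_mul_right _ (Nat.mul_le_mul_left _ h)
      obtain ⟨h5, h6⟩ := key _ hb h4
      refine ⟨L2 d, h5, ?_⟩
      rw [mem_union]
      right
      rw [hB]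
      simp only [mem_filter]
      refine ⟨h6, hsq, fun p hpp hpd => ⟨hp p hpp hpd, ?_⟩⟩
      exact Finset.dvd_lcm (f := fun p => p + 1) (Nat.mem_primeFactors.2 ⟨hpp, hpd, hd0⟩)
  have hterm : ∀ M ∈ Icc 1 (Nat.sqrt X), ((A M ∪ B M).card : ℝ) ≤ 6 * (X : ℝ) ^ σ * ((M : ℝ))⁻¹ := by
    intro M hM
    rw [mem_Icc] at hM
    obtain ⟨hM1, hM2⟩ := hM
    have hMM : M * M ≤ X := Nat.le_sqrt.1 hM2
    have hMX : M ≤ X := le_trans (Nat.le_mul_of_pos_left _ hM1) hMM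
    have hMr : (1 : ℝ) ≤ M := by exact_mod_cast hM1
    have hM0 : (0 : ℝ) < M := by linarith
    have hT : 1 ≤ (X : ℝ) / (M : ℝ) ^ 2 := by
      rw [le_div_iff₀ (by positivity)]
      have : ((M * M : ℕ) : ℝ) ≤ X := by exact_mod_cast hMM
      push_cast at this
      nlinarith
    obtain ⟨h3, h4⟩ := h1 X hX1 M hM1 (by omega) _ hT
    have h5 : ((A M ∪ B M).card : ℝ) ≤ (A M).card + (B M).card := by
      exact_mod_cast card_union_le _ _
    have h6 : ((X : ℝ) / (M : ℝ) ^ 2) ^ σ ≤ (X : ℝ) ^ σ * ((M : ℝ))⁻¹ := by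
      rw [div_rpow hX0.le (by positivity), div_eq_mul_inv]
      apply mul_le_mul_of_nonneg_left _ (by positivity)
      apply inv_anti₀ hM0
      rw [← rpow_natCast, ← rpow_mul hM0.le]
      calc (M : ℝ) = (M : ℝ) ^ (1 : ℝ) := (rpow_one _).symm
        _ ≤ (M : ℝ) ^ (((2 : ℕ) : ℝ) * σ) := by
          apply rpow_le_rpow_of_exponent_le hMr
          rw [hσ]
          push_cast
          linarith
    have h7 : ((A M).card : ℝ) ≤ 3 * ((X : ℝ) / (M : ℝ) ^ 2) ^ σ := h3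
    have h8 : ((B M).card : ℝ) ≤ 3 * ((X : ℝ) / (M : ℝ) ^ 2) ^ σ := h4
    linarith
  have hmain : (((Icc 1 X).filter fun d => Squarefree d ∧
      (∀ p : ℕ, p.Prime → p ∣ d → exp (log X ^ θ) ≤ p) ∧ F d ≤ X).card : ℝ) ≤
        6 * (X : ℝ) ^ σ * (1 + log X) := by
    have h3 : (((Icc 1 X).filter fun d => Squarefree d ∧
        (∀ p : ℕ, p.Prime → p ∣ d → exp (log X ^ θ) ≤ p) ∧ F d ≤ X).card : ℝ) ≤
          ∑ M ∈ Icc 1 (Nat.sqrt X), ((A M ∪ B M).card : ℝ) := by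
      exact_mod_cast (card_le_card hsub).trans card_biUnion_le
    have h4 : ∑ M ∈ Icc 1 (Nat.sqrt X), ((A M ∪ B M).card : ℝ) ≤
        6 * (X : ℝ) ^ σ * ∑ M ∈ Icc 1 (Nat.sqrt X), ((M : ℝ))⁻¹ := by
      rw [mul_sum]
      exact sum_le_sum hterm
    have h5 : ∑ M ∈ Icc 1 (Nat.sqrt X), ((M : ℝ))⁻¹ ≤ 1 + log X := by
      refine (harm_31 _).trans ?_
      have h6 : (0 : ℝ) < Nat.sqrt X := by
        exact_mod_cast Nat.sqrt_pos.2 hX3
      have h7 : ((Nat.sqrt X : ℕ) : ℝ) ≤ X := by exact_mod_cast Nat.sqrt_le_self X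
      have := log_le_log h6 h7
      linarith
    calc _ ≤ _ := h3
      _ ≤ _ := h4
      _ ≤ 6 * (X : ℝ) ^ σ * (1 + log X) := mul_le_mul_of_nonneg_left h5 (by positivity)
  calc _ ≤ 6 * (X : ℝ) ^ σ * (1 + log X) := hmain
    _ = (X : ℝ) ^ σ * (6 * (1 + log X)) := by ring
    _ ≤ (X : ℝ) ^ σ * (X : ℝ) ^ (η / 2) := mul_le_mul_of_nonneg_left (h2 X hX2) (by positivity)
    _ = (X : ℝ) ^ (1 - θ + η) := by
      rw [← rpow_add hX0, hσ]
      congr 1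
      ring

end Pool.Agent.Lib.MP_2d8e53_nt.K
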