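import Pool.Agent.Lib.MP_2d8e53_nt.K.B2_46
import Pool.Agent.Lib.MP_2d8e53_nt.K.N0_31

/-!
# Module B1: crossing at a large prime
-/

set_option autoImplicit false

namespace Pool.Agent.Lib.MP_2d8e53_nt.K

open Finset Real Pool.Agent.Lib.MP_2d8e53_nt.W
open scoped Classical

/-- Products of at most `r` elements of `P`. -/
noncomputable def prods95 (P : Finset ℕ) : ℕ → Finset ℕ
  | 0 => {1}
  | r + 1 => image₂ (fun a b => a * b) (insert 1 P) (prods95 P r)

theorem card_prods95 (P : Finset ℕ) (r : ℕ) : (prods95 P r).card ≤ (P.card + 1) ^ r := by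
  induction r with
  | zero => simp [prods95]
  | succ r ih =>
    rw [prods95, pow_succ, mul_comm]
    refine (card_image₂_le _ _ _).trans ?_
    exact Nat.mul_le_mul (card_insert_le _ _) ih

theorem mem_prods95 (P : Finset ℕ) (r : ℕ) : ∀ d : ℕ, Squarefree d → d.primeFactors ⊆ P →
    d.primeFactors.card ≤ r → d ∈ prods95 P r := by
  induction r with
  | zero =>
    intro d hd _ hc
    have h1 : d.primeFactors = ∅ := card_eq_zero.1 (by omega)
    rw [prods95, mem_singleton]
    rcases Nat.primeFactors_eq_empty.1 h1 with h | h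
    · exact absurd h hd.ne_zero
    · exact h
  | succ r ih =>
    intro d hd hP hc
    rw [prods95, mem_image₂]
    by_cases h1 : d = 1
    · refine ⟨1, mem_insert_self _ _, 1, ih 1 squarefree_one (by simp) (by simp), ?_⟩
      rw [h1]
    · have hp := Nat.minFac_prime h1
      set p := d.minFac with hpd
      have hdvd : p ∣ d := Nat.minFac_dvd d
      obtain ⟨e, he⟩ := hdvd
      have hpmem : p ∈ d.primeFactors := Nat.mem_primeFactors.2 ⟨hp, Nat.minFac_dvd d, hd.ne_zero⟩
      have hsq : Squarefree e := by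
        rw [he] at hd
        exact hd.squarefree_of_dvd (Dvd.intro_left _ rfl)
      have hcop : Nat.Coprime p e := by
        rw [he] at hd
        exact (Nat.squarefree_mul_iff.1 hd).1
      have hpf : d.primeFactors = insert p e.primeFactors := by
        conv_lhs => rw [he]
        rw [Nat.Coprime.primeFactors_mul hcop, hp.primeFactors, singleton_union]
      have hnot : p ∉ e.primeFactors := by
        intro hmem
        have h2 := Nat.dvd_of_mem_primeFactors hmem
        exact hp.one_lt.ne' (Nat.Coprime.eq_one_of_dvd hcop h2)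
      refine ⟨p, mem_insert_of_mem (hP hpmem), e, ih e hsq ?_ ?_, he.symm⟩
      · intro q hq
        apply hP
        rw [hpf]
        exact mem_insert_of_mem hq
      · rw [hpf, card_insert_of_notMem hnot] at hc
        omega

theorem card_L1_95 (X r M : ℕ) (hM : 1 ≤ M) :
    ((Icc 1 X).filter fun d => Squarefree d ∧ d.primeFactors.card ≤ r ∧ L1 d = M).card ≤
      (M.divisors.card + 1) ^ r := by
  have hsub : ((Icc 1 X).filter fun d => Squarefree d ∧ d.primeFactors.card ≤ r ∧ L1 d = M) ⊆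
      prods95 (M.divisors.image fun a => a + 1) r := by
    intro d hd
    rw [mem_filter] at hd
    obtain ⟨_, hsq, hc, hL⟩ := hd
    apply mem_prods95 _ _ _ hsq _ hc
    intro p hp
    rw [mem_image]
    refine ⟨p - 1, Nat.mem_divisors.2 ⟨?_, by omega⟩, ?_⟩
    · rw [← hL]
      exact Finset.dvd_lcm hp
    · have := (Nat.prime_of_mem_primeFactors hp).two_le
      omega
  refine (card_le_card hsub).trans ((card_prods95 _ _).trans ?_)
  exact Nat.pow_le_pow_left (Nat.add_le_add_right card_image_le _) _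

theorem card_L2_95 (X r M : ℕ) (hM : 1 ≤ M) :
    ((Icc 1 X).filter fun d => Squarefree d ∧ d.primeFactors.card ≤ r ∧ L2 d = M).card ≤
      (M.divisors.card + 1) ^ r := by
  have hsub : ((Icc 1 X).filter fun d => Squarefree d ∧ d.primeFactors.card ≤ r ∧ L2 d = M) ⊆
      prods95 (M.divisors.image fun a => a - 1) r := by
    intro d hd
    rw [mem_filter] at hd
    obtain ⟨_, hsq, hc, hL⟩ := hd
    apply mem_prods95 _ _ _ hsq _ hc
    intro p hp
    rw [mem_image]
    refine ⟨p + 1, Nat.mem_divisors.2 ⟨?_, by omega⟩, by omega⟩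
    rw [← hL]
    exact Finset.dvd_lcm hp
  refine (card_le_card hsub).trans ((card_prods95 _ _).trans ?_)
  exact Nat.pow_le_pow_left (Nat.add_le_add_right card_image_le _) _

/-- The multiples of `d` which cross at a prime `p ≤ d`. -/
noncomputable def T95 (X d : ℕ) : Finset ℕ :=
  (Icc 1 X).filter fun n => Rig n ∧ ∃ p : ℕ, 1 ≤ p ∧ p ≤ d ∧ d * p ∣ n ∧ X < F (d * p)

theorem three_95 (hC : StCls) (X e : ℕ) (hX : 1 ≤ X) (he : 1 ≤ e) (hF : X < F e) :
    (((Icc 1 X).filter fun n => Rig n ∧ e ∣ n).card : ℝ) ≤ 3 := by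
  refine (hC X e hX he).trans ?_
  have hX0 : (0 : ℝ) < X := by exact_mod_cast hX
  have hFr : (X : ℝ) < F e := by exact_mod_cast hF
  have hF0 : (0 : ℝ) < F e := hX0.trans hFr
  have : 2 * (X : ℝ) / F e ≤ 2 := by
    rw [div_le_iff₀ hF0]
    linarith
  linarith

theorem T_le_95 (hC : StCls) (X d : ℕ) (hX : 1 ≤ X) (hd : 1 ≤ d) (hF : F d ≤ X) :
    ((T95 X d).card : ℝ) ≤ 3 * √X / (min (L1 d) (L2 d) : ℕ) := by
  have hX0 : (0 : ℝ) < X := by exact_mod_cast hX
  have hd0 : (0 : ℝ) < d := by exact_mod_cast hd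
  have hL1 := L1_pos_31 d
  have hL2 := L2_pos_31 d
  have hL1r : (0 : ℝ) < L1 d := by exact_mod_cast hL1
  have hL2r : (0 : ℝ) < L2 d := by exact_mod_cast hL2
  have hFd : ((F d : ℕ) : ℝ) = d * L1 d * L2 d := by
    unfold F
    push_cast
    ring
  have hFr : ((F d : ℕ) : ℝ) ≤ X := by exact_mod_cast hF
  have hF0 : (0 : ℝ) < (F d : ℕ) := by rw [hFd]; positivity
  have h1 : ((T95 X d).card : ℝ) ≤ 3 * X / F d := by
    have hsub : T95 X d ⊆ (Icc 1 X).filter fun n => Rig n ∧ d ∣ n := by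
      intro n hn
      rw [T95, mem_filter] at hn
      obtain ⟨hn1, hR, p, _, _, hdp, _⟩ := hn
      rw [mem_filter]
      exact ⟨hn1, hR, (Dvd.intro _ rfl).trans hdp⟩
    calc ((T95 X d).card : ℝ) ≤ (((Icc 1 X).filter fun n => Rig n ∧ d ∣ n).card : ℝ) := by
          exact_mod_cast card_le_card hsub
      _ ≤ 2 * X / F d + 1 := hC X d hX hd
      _ ≤ 2 * X / F d + X / F d := by
          have : 1 ≤ (X : ℝ) / F d := by
            rw [le_div_iff₀ hF0]
            linarith
          linarith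
      _ = 3 * X / F d := by ring
  have h2 : ((T95 X d).card : ℝ) ≤ 3 * d := by
    have hsub : T95 X d ⊆ (Icc 1 d).biUnion fun p =>
        if X < F (d * p) then (Icc 1 X).filter fun n => Rig n ∧ d * p ∣ n else ∅ := by
      intro n hn
      rw [T95, mem_filter] at hn
      obtain ⟨hn1, hR, p, hp1, hpd, hdp, hFp⟩ := hn
      rw [mem_biUnion]
      refine ⟨p, mem_Icc.2 ⟨hp1, hpd⟩, ?_⟩
      rw [if_pos hFp, mem_filter]
      exact ⟨hn1, hR, hdp⟩
    calc ((T95 X d).card : ℝ) ≤ (((Icc 1 d).biUnion fun p =>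
          if X < F (d * p) then (Icc 1 X).filter fun n => Rig n ∧ d * p ∣ n else ∅).card : ℝ) := by
          exact_mod_cast card_le_card hsub
      _ ≤ ∑ p ∈ Icc 1 d, ((if X < F (d * p) then
          (Icc 1 X).filter fun n => Rig n ∧ d * p ∣ n else ∅).card : ℝ) := by
          exact_mod_cast card_biUnion_le
      _ ≤ ∑ _p ∈ Icc 1 d, (3 : ℝ) := by
          apply sum_le_sum
          intro p hp
          rw [mem_Icc] at hp
          split_ifs with hFp
          · exact three_95 hC X (d * p) hX (Nat.mul_pos hd hp.1) hFp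
          · simp
      _ = 3 * d := by
          rw [sum_const, Nat.card_Icc, nsmul_eq_mul]
          push_cast
          ring
  set M : ℕ := min (L1 d) (L2 d) with hM
  have hM1 : (0 : ℝ) < (M : ℕ) := by
    have : 1 ≤ M := le_min hL1 hL2
    exact_mod_cast this
  have hMM : (M : ℝ) * M ≤ L1 d * L2 d := by
    have e1 : (M : ℝ) ≤ L1 d := by exact_mod_cast min_le_left _ _
    have e2 : (M : ℝ) ≤ L2 d := by exact_mod_cast min_le_right _ _
    exact mul_le_mul e1 e2 hM1.le hL1r.le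
  rw [le_div_iff₀ hM1]
  have hT0 : (0 : ℝ) ≤ ((T95 X d).card : ℝ) := Nat.cast_nonneg _
  have h3 : ((T95 X d).card : ℝ) * (T95 X d).card ≤ (3 * X / F d) * (3 * d) :=
    mul_le_mul h1 h2 hT0 (by positivity)
  have h4 : (3 * (X : ℝ) / F d) * (3 * d) * (M * M) ≤ 9 * X := by
    rw [hFd]
    have e1 : (3 * (X : ℝ) / (d * L1 d * L2 d)) * (3 * d) * (M * M) =
        9 * X * ((M * M) / (L1 d * L2 d)) := by
      field_simp
      ring
    rw [e1]
    have e2 : ((M : ℝ) * M) / (L1 d * L2 d) ≤ 1 := by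
      rw [div_le_one (by positivity)]
      exact hMM
    nlinarith
  have h5 : (((T95 X d).card : ℝ) * M) ^ 2 ≤ (3 * √X) ^ 2 := by
    have e1 : (3 * √(X : ℝ)) ^ 2 = 9 * X := by
      rw [mul_pow, sq_sqrt hX0.le]
      norm_num
    rw [e1]
    calc (((T95 X d).card : ℝ) * M) ^ 2
        = ((T95 X d).card : ℝ) * (T95 X d).card * (M * M) := by ring
      _ ≤ (3 * X / F d) * (3 * d) * (M * M) := mul_le_mul_of_nonneg_right h3 (by positivity)
      _ ≤ 9 * X := h4
  exact (sq_le_sq₀ (by positivity) (by positivity)).1 h5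

theorem S1_95 (hC : StCls) (X : ℕ) (hX : 1 ≤ X) (K : ℝ) (hK : 0 ≤ K) :
    ((((Icc 1 ⌊K⌋₊).biUnion fun p => if X < F p then
      (Icc 1 X).filter fun n => Rig n ∧ p ∣ n else ∅).card : ℕ) : ℝ) ≤ 3 * K := by
  calc ((((Icc 1 ⌊K⌋₊).biUnion fun p => if X < F p then
        (Icc 1 X).filter fun n => Rig n ∧ p ∣ n else ∅).card : ℕ) : ℝ)
      ≤ ∑ p ∈ Icc 1 ⌊K⌋₊, ((if X < F p then
          (Icc 1 X).filter fun n => Rig n ∧ p ∣ n else ∅).card : ℝ) := by
          exact_mod_cast card_biUnion_le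
    _ ≤ ∑ _p ∈ Icc 1 ⌊K⌋₊, (3 : ℝ) := by
          apply sum_le_sum
          intro p hp
          rw [mem_Icc] at hp
          split_ifs with hFp
          · exact three_95 hC X p hX hp.1 hFp
          · simp
    _ = 3 * (⌊K⌋₊ : ℝ) := by
          rw [sum_const, Nat.card_Icc, nsmul_eq_mul]
          push_cast
          ring
    _ ≤ 3 * K := by
          have := Nat.floor_le hK
          linarith

theorem sumD_95 (X r : ℕ) (B : ℝ) (hX : 1 ≤ X)
    (hB : ∀ M : ℕ, 1 ≤ M → M ≤ 2 * X → (M.divisors.card : ℝ) ≤ B) :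
    ∑ d ∈ (Icc 1 X).filter (fun d => Squarefree d ∧ d.primeFactors.card ≤ r ∧ F d ≤ X),
      3 * √X / (min (L1 d) (L2 d) : ℕ) ≤
      3 * √X * (2 * (B + 1) ^ r) * (1 + log X) := by
  set D := (Icc 1 X).filter (fun d => Squarefree d ∧ d.primeFactors.card ≤ r ∧ F d ≤ X) with hD
  have hmaps : ∀ d ∈ D, min (L1 d) (L2 d) ∈ Icc 1 X := by
    intro d hd
    rw [hD, mem_filter, mem_Icc] at hd
    obtain ⟨⟨hd1, _⟩, _, _, hF⟩ := hd
    rw [mem_Icc]
    refine ⟨le_min (L1_pos_31 d) (L2_pos_31 d), (min_le_left _ _).trans (le_trans ?_ hF)⟩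
    unfold F
    calc L1 d = 1 * L1 d * 1 := by ring
      _ ≤ d * L1 d * L2 d :=
        Nat.mul_le_mul (Nat.mul_le_mul_right _ hd1) (L2_pos_31 d)
  rw [← sum_fiberwise_of_maps_to hmaps]
  have hM : ∀ M ∈ Icc 1 X, ∑ d ∈ D.filter (fun d => min (L1 d) (L2 d) = M),
      3 * √X / (min (L1 d) (L2 d) : ℕ) ≤ 3 * √X * (2 * (B + 1) ^ r) * ((M : ℝ))⁻¹ := by
    intro M hM
    rw [mem_Icc] at hM
    have hM0 : (0 : ℝ) < M := by exact_mod_cast hM.1
    have e1 : ∑ d ∈ D.filter (fun d => min (L1 d) (L2 d) = M),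
        3 * √X / (min (L1 d) (L2 d) : ℕ) =
        ((D.filter (fun d => min (L1 d) (L2 d) = M)).card : ℝ) * (3 * √X / M) := by
      rw [← nsmul_eq_mul, ← sum_const]
      apply sum_congr rfl
      intro d hd
      rw [(mem_filter.1 hd).2]
    rw [e1]
    have hsub : D.filter (fun d => min (L1 d) (L2 d) = M) ⊆
        ((Icc 1 X).filter fun d => Squarefree d ∧ d.primeFactors.card ≤ r ∧ L1 d = M) ∪
        ((Icc 1 X).filter fun d => Squarefree d ∧ d.primeFactors.card ≤ r ∧ L2 d = M) := by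
      intro d hd
      rw [mem_filter, hD, mem_filter] at hd
      obtain ⟨⟨hd1, hsq, hc, _⟩, hmin⟩ := hd
      rw [mem_union, mem_filter, mem_filter]
      rcases min_choice (L1 d) (L2 d) with h | h
      · left
        exact ⟨hd1, hsq, hc, by rw [← h, hmin]⟩
      · right
        exact ⟨hd1, hsq, hc, by rw [← h, hmin]⟩
    have hB' : ((M.divisors.card : ℝ) + 1) ^ r ≤ (B + 1) ^ r := by
      apply pow_le_pow_left₀ (by positivity)
      have := hB M hM.1 (by omega)
      linarith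
    have hc : ((D.filter (fun d => min (L1 d) (L2 d) = M)).card : ℝ) ≤ 2 * (B + 1) ^ r := by
      have h1 := (card_le_card hsub).trans ((card_union_le _ _).trans
        (Nat.add_le_add (card_L1_95 X r M hM.1) (card_L2_95 X r M hM.1)))
      have h2 : ((D.filter (fun d => min (L1 d) (L2 d) = M)).card : ℝ) ≤
          ((M.divisors.card : ℝ) + 1) ^ r + ((M.divisors.card : ℝ) + 1) ^ r := by
        exact_mod_cast h1
      linarith
    calc ((D.filter (fun d => min (L1 d) (L2 d) = M)).card : ℝ) * (3 * √X / M)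
        ≤ (2 * (B + 1) ^ r) * (3 * √X / M) :=
          mul_le_mul_of_nonneg_right hc (by positivity)
      _ = 3 * √X * (2 * (B + 1) ^ r) * ((M : ℝ))⁻¹ := by
          rw [div_eq_mul_inv]
          ring
  refine (sum_le_sum hM).trans ?_
  rw [← mul_sum]
  have hB0 : 0 ≤ B := (Nat.cast_nonneg _).trans (hB 1 le_rfl (by omega))
  apply mul_le_mul_of_nonneg_left (harm_31 X) (by positivity)

theorem card_Up_95 (X n p : ℕ) (η : ℝ) (hη : 0 < η) (hX : 2 ≤ X) (hU : Up n p ≤ X)
    (hsq : Squarefree (Up n p)) (hp : (X : ℝ) ^ η ≤ p) :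
    (Up n p).primeFactors.card ≤ ⌊1 / η⌋₊ := by
  have hX1 : (1 : ℝ) < X := by exact_mod_cast hX
  have hX0 : (0 : ℝ) < X := by linarith
  apply Nat.le_floor
  have h1 : (X : ℝ) ^ (η * (Up n p).primeFactors.card) ≤ (X : ℝ) ^ (1 : ℝ) := by
    rw [rpow_mul hX0.le, rpow_natCast, rpow_one]
    calc ((X : ℝ) ^ η) ^ (Up n p).primeFactors.card
        = ∏ _q ∈ (Up n p).primeFactors, (X : ℝ) ^ η := by rw [prod_const]
      _ ≤ ∏ q ∈ (Up n p).primeFactors, (q : ℝ) := by
          apply prod_le_prod (fun q _ => by positivity)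
          intro q hq
          have hqp := Nat.prime_of_mem_primeFactors hq
          have h2 := lt_of_dvd_up46 hqp (Nat.dvd_of_mem_primeFactors hq)
          exact hp.trans (by exact_mod_cast h2.le)
      _ = ((Up n p : ℕ) : ℝ) := by
          rw [← Nat.cast_prod, Nat.prod_primeFactors_of_squarefree hsq]
      _ ≤ X := by exact_mod_cast hU
  rw [rpow_le_rpow_left_iff hX1] at h1
  rw [le_div_iff₀ hη, mul_comm]
  exact h1

theorem stB1_95 (hC : StCls) (hT : StTop) (hD : StTau) : StB1 := by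
  intro η ε hη hε
  set r := ⌊1 / η⌋₊ with hr
  obtain ⟨X₁, h1⟩ := hD (ε / (4 * (r + 1))) (by positivity)
  obtain ⟨X₂, h2⟩ := ev_31 (ε / 4) (by linarith)
  obtain ⟨X₃, hX31, h3⟩ := const_le_rpow46 (2 ^ r + 6) (ε / 4) (by linarith)
  obtain ⟨X₄, hX41, h4⟩ := const_le_rpow46 2 (ε / 4) (by linarith)
  refine ⟨max (max X₁ X₂) (max (max X₃ X₄) 2), fun X hX => ?_⟩
  have hX1 : X₁ ≤ X := by omega
  have hX2 : X₂ ≤ X := by omega
  have hX3 : X₃ ≤ X := by omega
  have hX4 : X₄ ≤ X := by omega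
  have hX5 : 2 ≤ X := by omega
  have hXone : 1 ≤ X := by omega
  have hXr : (1 : ℝ) ≤ X := by exact_mod_cast hXone
  have hX0 : (0 : ℝ) < X := by linarith
  set S := (Icc 1 X).filter fun n => ∃ p : ℕ, Crs X n p ∧ (X : ℝ) ^ η ≤ p with hS
  set S1 := (Icc 1 ⌊2 * √(X : ℝ)⌋₊).biUnion fun p => if X < F p then
      (Icc 1 X).filter fun n => Rig n ∧ p ∣ n else ∅ with hS1
  set D := (Icc 1 X).filter (fun d => Squarefree d ∧ d.primeFactors.card ≤ r ∧ F d ≤ X) with hDd
  have hsub : S ⊆ S1 ∪ D.biUnion (T95 X) := by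
    intro n hn
    rw [hS, mem_filter, mem_Icc] at hn
    obtain ⟨⟨hn1, hnX⟩, p, ⟨hR, hp, hpn, hF1, hF2⟩, hpX⟩ := hn
    have hsq : Squarefree n := hR.2.2.1
    have hdvd := up_mul_dvd46 hsq hp hpn
    have hUn : Up n p ∣ n := (Dvd.intro _ rfl).trans hdvd
    have hU1 : 1 ≤ Up n p := Nat.pos_of_dvd_of_pos hUn hn1
    have hUX : Up n p ≤ X := (Nat.le_of_dvd hn1 hUn).trans hnX
    rw [mem_union]
    by_cases hone : Up n p = 1
    · left
      rw [hS1, mem_biUnion]
      refine ⟨p, ?_, ?_⟩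
      · rw [mem_Icc]
        refine ⟨hp.pos, Nat.le_floor ?_⟩
        have h5 := hT n p hR hp hpn
        have h6 : ((p : ℝ)) ^ 3 < 2 * X := by
          have : p ^ 3 < 2 * X := lt_of_lt_of_le h5 (by omega)
          exact_mod_cast this
        by_contra hcon
        rw [not_le] at hcon
        have hs0 : 0 ≤ √(X : ℝ) := sqrt_nonneg _
        have hs1 : 1 ≤ √(X : ℝ) := by
          rw [← sqrt_one]
          exact sqrt_le_sqrt hXr
        have h7 : (2 * √(X : ℝ)) ^ 3 < (p : ℝ) ^ 3 := pow_lt_pow_left₀ hcon (by positivity) (by norm_num)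
        have h8 : (2 * √(X : ℝ)) ^ 3 = 8 * X * √X := by
          have := sq_sqrt hX0.le
          calc (2 * √(X : ℝ)) ^ 3 = 8 * (√(X : ℝ) ^ 2) * √X := by ring
            _ = 8 * X * √X := by rw [this]
        rw [h8] at h7
        nlinarith
      · have hF3 : X < F p := by
          rw [hone, one_mul] at hF2
          exact hF2
        rw [if_pos hF3, mem_filter, mem_Icc]
        exact ⟨⟨hn1, hnX⟩, hR, hpn⟩
    · right
      rw [mem_biUnion]
      refine ⟨Up n p, ?_, ?_⟩
      · rw [hDd, mem_filter, mem_Icc]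
        exact ⟨⟨hU1, hUX⟩, hsq.squarefree_of_dvd hUn,
          card_Up_95 X n p η hη hX5 hUX (hsq.squarefree_of_dvd hUn) hpX, hF1⟩
      · rw [T95, mem_filter, mem_Icc]
        refine ⟨⟨hn1, hnX⟩, hR, p, hp.pos, ?_, hdvd, hF2⟩
        have hq := Nat.minFac_prime hone
        have hqd := Nat.minFac_dvd (Up n p)
        have h5 := lt_of_dvd_up46 hq hqd
        exact h5.le.trans (Nat.le_of_dvd hU1 hqd)
  have hcard : (S.card : ℝ) ≤ (S1.card : ℝ) + ∑ d ∈ D, ((T95 X d).card : ℝ) := by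
    have := (card_le_card hsub).trans ((card_union_le _ _).trans
      (Nat.add_le_add_left card_biUnion_le _))
    exact_mod_cast this
  have k1 : (S1.card : ℝ) ≤ 3 * (2 * √X) := S1_95 hC X hXone _ (by positivity)
  set B : ℝ := (X : ℝ) ^ (ε / (4 * (r + 1))) with hB
  have k2 : ∑ d ∈ D, ((T95 X d).card : ℝ) ≤ 3 * √X * (2 * (B + 1) ^ r) * (1 + log X) := by
    refine le_trans (sum_le_sum ?_) (sumD_95 X r B hXone (h1 X hX1))
    intro d hd
    rw [hDd, mem_filter, mem_Icc] at hd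
    exact T_le_95 hC X d hXone hd.1.1 hd.2.2.2
  have hB1 : 1 ≤ B := one_le_rpow hXr (by positivity)
  have k3 : (B + 1) ^ r ≤ 2 ^ r * (X : ℝ) ^ (ε / 4) := by
    calc (B + 1) ^ r ≤ (2 * B) ^ r := pow_le_pow_left₀ (by linarith) (by linarith) r
      _ = 2 ^ r * B ^ r := mul_pow _ _ _
      _ ≤ 2 ^ r * (X : ℝ) ^ (ε / 4) := by
          apply mul_le_mul_of_nonneg_left _ (by positivity)
          rw [hB, ← rpow_natCast, ← rpow_mul hX0.le]
          apply rpow_le_rpow_of_exponent_le hXr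
          rw [div_mul_eq_mul_div, div_le_div_iff₀ (by positivity) (by norm_num)]
          have : (0 : ℝ) ≤ r := Nat.cast_nonneg r
          nlinarith
  have k4 := h2 X hX2
  have k5 := h3 X hX3
  have k6 := h4 X hX4
  have hsq : √(X : ℝ) = (X : ℝ) ^ (1 / 2 : ℝ) := sqrt_eq_rpow _
  have hlog : 0 ≤ log (X : ℝ) := log_nonneg hXr
  set E : ℝ := (X : ℝ) ^ (ε / 4) with hE
  have hE1 : 1 ≤ E := one_le_rpow hXr (by linarith)
  have hE4 : (X : ℝ) ^ (1 / 2 + ε) = √X * (E * E * E * E) := by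
    rw [hsq, hE, ← rpow_add hX0, ← rpow_add hX0, ← rpow_add hX0, ← rpow_add hX0]
    congr 1
    ring
  have hsqrt0 : 0 ≤ √(X : ℝ) := sqrt_nonneg _
  have h2r : (0 : ℝ) ≤ 2 ^ r := by positivity
  rw [hE4]
  have k7 : 3 * √(X : ℝ) * (2 * (B + 1) ^ r) * (1 + log X) ≤ √X * (E * E * E) := by
    calc 3 * √(X : ℝ) * (2 * (B + 1) ^ r) * (1 + log X)
        = √X * ((B + 1) ^ r * (6 * (1 + log X))) := by ring
      _ ≤ √X * ((2 ^ r * E) * E) := by
          apply mul_le_mul_of_nonneg_left _ hsqrt0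
          exact mul_le_mul k3 k4 (by positivity) (by positivity)
      _ ≤ √X * ((E * E) * E) := by
          apply mul_le_mul_of_nonneg_left _ hsqrt0
          apply mul_le_mul_of_nonneg_right _ (by positivity)
          apply mul_le_mul_of_nonneg_right _ (by positivity)
          linarith
      _ = √X * (E * E * E) := by ring
  have k8 : 3 * (2 * √(X : ℝ)) ≤ √X * (E * E * E) := by
    have e1 : (6 : ℝ) ≤ E := by linarith
    have e2 : E ≤ E * E * E := by nlinarith
    nlinarith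
  have k9 : 2 * (√(X : ℝ) * (E * E * E)) ≤ √X * (E * E * E * E) := by
    have : 0 ≤ √(X : ℝ) * (E * E * E) := by positivity
    nlinarith
  linarith

end Pool.Agent.Lib.MP_2d8e53_nt.K
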