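import Pool.Agent.Lib.MP_2d8e53_nt.K.Tau46

/-!
# Module B2: crossing at a small prime
-/

set_option autoImplicit false

namespace Pool.Agent.Lib.MP_2d8e53_nt.K

open Finset Real Pool.Agent.Lib.MP_2d8e53_nt.W
open scoped Classical

/-- `Up n p * p` divides `n` for a squarefree `n` with the prime divisor `p`. -/
lemma up_mul_dvd46 {n p : ℕ} (hs : Squarefree n) (hp : p.Prime) (hpn : p ∣ n) :
    Up n p * p ∣ n := by
  have hn0 : n ≠ 0 := hs.ne_zero
  have h1 : Up n p * p = ∏ q ∈ insert p (n.primeFactors.filter (fun q => p < q)), q := by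
    rw [prod_insert (by simp), mul_comm]
    rfl
  have h2 : ∏ q ∈ n.primeFactors, q = n := Nat.prod_primeFactors_of_squarefree hs
  rw [h1]
  conv_rhs => rw [← h2]
  apply prod_dvd_prod_of_subset
  intro q hq
  rw [mem_insert, mem_filter] at hq
  rcases hq with rfl | hq
  · exact Nat.mem_primeFactors.2 ⟨hp, hpn, hn0⟩
  · exact hq.1

/-- The prime divisors of `Up n p` are larger than `p`. -/
lemma lt_of_dvd_up46 {n p q : ℕ} (hq : q.Prime) (h : q ∣ Up n p) : p < q := by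
  unfold Up at h
  obtain ⟨r, hr, hqr⟩ := (Prime.dvd_finsetProd_iff hq.prime _).1 h
  rw [mem_filter] at hr
  have hrp := Nat.prime_of_mem_primeFactors hr.1
  rw [(Nat.prime_dvd_prime_iff_eq hq hrp).1 hqr]
  exact hr.2

theorem stB2_46 (hC : StCls) (hN : StN0) : StB2 := by
  intro θ η hθ hθ2 hη
  obtain ⟨X₁, h1⟩ := hN θ η hθ hθ2 hη
  obtain ⟨X₂, hX21, h2⟩ := const_le_rpow46 3 η hη
  refine ⟨max X₁ X₂, fun X hX => ?_⟩
  have hX1 : X₁ ≤ X := (le_max_left _ _).trans hX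
  have hX2 : X₂ ≤ X := (le_max_right _ _).trans hX
  have hXone : 1 ≤ X := hX21.trans hX2
  have hX0 : (0 : ℝ) < X := by exact_mod_cast hXone
  set y : ℝ := exp (log X ^ θ) with hy
  set N0 := (Icc 1 X).filter fun d => Squarefree d ∧
    (∀ p : ℕ, p.Prime → p ∣ d → y ≤ p) ∧ F d ≤ X with hN0
  set P := Icc 1 ⌊(X : ℝ) ^ η⌋₊ with hP
  set S := (Icc 1 X).filter fun n => ∃ p : ℕ, Crs X n p ∧ y ≤ p ∧ (p : ℝ) ≤ (X : ℝ) ^ η with hS
  -- for one pair
  set T : ℕ × ℕ → Finset ℕ := fun x =>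
    if X < F (x.1 * x.2) then (Icc 1 X).filter fun n => Rig n ∧ x.1 * x.2 ∣ n else ∅ with hT
  have hsub : S ⊆ (N0 ×ˢ P).biUnion T := by
    intro n hn
    rw [hS, mem_filter, mem_Icc] at hn
    obtain ⟨⟨hn1, hnX⟩, p, ⟨hR, hp, hpn, hF1, hF2⟩, hyp, hpX⟩ := hn
    have hsq : Squarefree n := hR.2.2.1
    have hdvd := up_mul_dvd46 hsq hp hpn
    have hUn : Up n p ∣ n := (Dvd.intro _ rfl).trans hdvd
    have hU1 : 1 ≤ Up n p := Nat.pos_of_dvd_of_pos hUn hn1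
    have hUX : Up n p ≤ X := (Nat.le_of_dvd hn1 hUn).trans hnX
    rw [mem_biUnion]
    refine ⟨(Up n p, p), ?_, ?_⟩
    · rw [mem_product, hN0, mem_filter, mem_Icc, hP, mem_Icc]
      refine ⟨⟨⟨hU1, hUX⟩, hsq.squarefree_of_dvd hUn, ?_, hF1⟩, hp.one_lt.le, Nat.le_floor hpX⟩
      intro q hq hqU
      have := lt_of_dvd_up46 hq hqU
      exact hyp.trans (by exact_mod_cast this.le)
    · simp only [hT]
      rw [if_pos hF2, mem_filter, mem_Icc]
      exact ⟨⟨hn1, hnX⟩, hR, hdvd⟩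
  have hTcard : ∀ x ∈ N0 ×ˢ P, ((T x).card : ℝ) ≤ 3 := by
    intro x hx
    rw [mem_product, hN0, mem_filter, mem_Icc, hP, mem_Icc] at hx
    have hx1 : 1 ≤ x.1 * x.2 := Nat.mul_pos hx.1.1.1 hx.2.1
    simp only [hT]
    split_ifs with hF
    · refine (hC X (x.1 * x.2) hXone hx1).trans ?_
      have hFr : (X : ℝ) < F (x.1 * x.2) := by exact_mod_cast hF
      have hF0 : (0 : ℝ) < F (x.1 * x.2) := hX0.trans hFr
      have : 2 * (X : ℝ) / F (x.1 * x.2) ≤ 2 := by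
        rw [div_le_iff₀ hF0]
        linarith
      linarith
    · simp
  have hcard : (S.card : ℝ) ≤ 3 * ((N0.card : ℝ) * (P.card : ℝ)) := by
    calc (S.card : ℝ) ≤ (((N0 ×ˢ P).biUnion T).card : ℝ) := by
          exact_mod_cast card_le_card hsub
      _ ≤ ∑ x ∈ N0 ×ˢ P, ((T x).card : ℝ) := by
          exact_mod_cast card_biUnion_le
      _ ≤ ∑ _x ∈ N0 ×ˢ P, (3 : ℝ) := sum_le_sum hTcard
      _ = 3 * ((N0.card : ℝ) * (P.card : ℝ)) := by
          rw [sum_const, card_product, nsmul_eq_mul]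
          push_cast
          ring
  have hN0c : (N0.card : ℝ) ≤ (X : ℝ) ^ (1 - θ + η) := h1 X hX1
  have hPc : (P.card : ℝ) ≤ (X : ℝ) ^ η := by
    rw [hP, Nat.card_Icc, Nat.add_sub_cancel]
    exact Nat.floor_le (by positivity)
  have h3 : (3 : ℝ) ≤ (X : ℝ) ^ η := h2 X hX2
  calc (S.card : ℝ) ≤ 3 * ((N0.card : ℝ) * (P.card : ℝ)) := hcard
    _ ≤ (X : ℝ) ^ η * ((X : ℝ) ^ (1 - θ + η) * (X : ℝ) ^ η) := by
        gcongr
    _ = (X : ℝ) ^ (1 - θ + 3 * η) := by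
        rw [← rpow_add hX0, ← rpow_add hX0]
        congr 1
        ring

end Pool.Agent.Lib.MP_2d8e53_nt.K
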