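import Pool.Agent.Lib.MP_2d8e53_nt.K.StmtsK95
import Pool.Agent.Lib.MP_2d8e53_nt.K.N0_31
import Pool.Agent.Lib.MP_2d8e53_nt.W.Cnt12

/-!
# Modules CLS and TOP
-/

set_option autoImplicit false

namespace Pool.Agent.Lib.MP_2d8e53_nt.K

open Finset Real Pool.Agent.Lib.MP_2d8e53_nt.W
open scoped Classical

theorem stCls_95 : StCls := by
  intro X d hX hd
  rcases ((Icc 1 X).filter fun n => Rig n ∧ d ∣ n).eq_empty_or_nonempty with he | ⟨n0, hn0⟩
  · rw [he]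
    simp only [card_empty, Nat.cast_zero]
    positivity
  obtain ⟨-, h1, h2⟩ := Finset.mem_filter.1 hn0
  obtain ⟨ν, hν, rfl⟩ := cnt12_odd h1
  obtain ⟨-, -, -, hA1, hB1, -⟩ := cnt12_AB h1 h2
  have hL1 : L1 d ≤ 2 * cntA d := by
    apply Nat.le_of_dvd (by omega)
    refine Finset.lcm_dvd fun p hp => ?_
    obtain ⟨a, ha1, hpa, _, _⟩ := cnt12_prime h1 (Nat.prime_of_mem_primeFactors hp)
      ((Nat.dvd_of_mem_primeFactors hp).trans h2)
    have h3 : (p - 1) / 2 ∣ cntA d := Finset.dvd_lcm (f := fun p => (p - 1) / 2) hp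
    have h4 : p - 1 = 2 * ((p - 1) / 2) := by omega
    rw [h4]
    exact Nat.mul_dvd_mul_left 2 h3
  have hL2 : L2 d ≤ 2 * cntB d := by
    apply Nat.le_of_dvd (by omega)
    refine Finset.lcm_dvd fun p hp => ?_
    obtain ⟨a, ha1, hpa, _, _⟩ := cnt12_prime h1 (Nat.prime_of_mem_primeFactors hp)
      ((Nat.dvd_of_mem_primeFactors hp).trans h2)
    have h3 : (p + 1) / 2 ∣ cntB d := Finset.dvd_lcm (f := fun p => (p + 1) / 2) hp
    have h4 : p + 1 = 2 * ((p + 1) / 2) := by omega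
    rw [h4]
    exact Nat.mul_dvd_mul_left 2 h3
  refine (cnt12_d X d hX hd).trans ?_
  have hd0 : (0 : ℝ) < d := by exact_mod_cast hd
  have hA0 : (0 : ℝ) < cntA d := by exact_mod_cast hA1
  have hB0 : (0 : ℝ) < cntB d := by exact_mod_cast hB1
  have hL10 : (0 : ℝ) < L1 d := by exact_mod_cast L1_pos_31 d
  have hL20 : (0 : ℝ) < L2 d := by exact_mod_cast L2_pos_31 d
  have hX0 : (0 : ℝ) ≤ X := Nat.cast_nonneg _
  have hF : ((F d : ℕ) : ℝ) = d * L1 d * L2 d := by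
    unfold F
    push_cast
    ring
  rw [hF]
  have h5 : (L1 d : ℝ) * L2 d ≤ (2 * cntA d) * (2 * cntB d) := by
    have e1 : (L1 d : ℝ) ≤ 2 * cntA d := by exact_mod_cast hL1
    have e2 : (L2 d : ℝ) ≤ 2 * cntB d := by exact_mod_cast hL2
    exact mul_le_mul e1 e2 hL20.le (by positivity)
  have h6 : (X : ℝ) / 2 * (1 / ((cntA d : ℝ) * cntB d) * (1 / (d : ℝ))) =
      2 * X / (d * ((2 * cntA d) * (2 * cntB d))) := by
    field_simp
  rw [h6]
  have h7 : 2 * (X : ℝ) / (d * ((2 * cntA d) * (2 * cntB d))) ≤ 2 * X / (d * L1 d * L2 d) := by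
    apply div_le_div_of_nonneg_left (by positivity) (by positivity)
    rw [mul_assoc]
    exact mul_le_mul_of_nonneg_left h5 hd0.le
  linarith

theorem stTop_95 : StTop := by
  intro n p hR hp hpn
  obtain ⟨ν, hν, rfl⟩ := cnt12_odd hR
  obtain ⟨a, ha1, rfl, ⟨t, ht⟩, ⟨s, hs⟩⟩ := cnt12_prime hR hp hpn
  obtain ⟨k, hk⟩ := hpn
  have hk0 : k ≠ 0 := by rintro rfl; omega
  have hk1 : k ≠ 1 := by
    rintro rfl
    apply hR.2.1
    rw [hk, mul_one]
    exact hp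
  have hkc : ((k - 1 : ℕ) : ℤ) = (k : ℤ) - 1 := by
    push_cast [Nat.cast_sub (by omega : 1 ≤ k)]
    ring
  have e1 : (2 * (ν : ℤ) + 1) = (2 * a + 1) * k := by exact_mod_cast hk
  have e2 : (ν : ℤ) = a * t := by exact_mod_cast ht
  have e3 : (ν : ℤ) + 1 = (a + 1) * s := by exact_mod_cast hs
  -- `2 a ∣ k - 1`, `2 (a + 1) ∣ k - 1`
  have hd1 : 2 * a ∣ k - 1 := by
    have h1 : ((2 * a : ℕ) : ℤ) ∣ (k : ℤ) - 1 := by
      refine ⟨t - k, ?_⟩
      push_cast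
      rw [e2] at e1
      linarith
    rw [← hkc] at h1
    exact_mod_cast h1
  have hd2 : 2 * (a + 1) ∣ k - 1 := by
    have h1 : ((2 * (a + 1) : ℕ) : ℤ) ∣ (k : ℤ) - 1 := by
      refine ⟨k - s, ?_⟩
      push_cast
      linarith
    rw [← hkc] at h1
    exact_mod_cast h1
  obtain ⟨w, hw⟩ := hd1
  have hj : k - 1 = 2 * (a * w) := by rw [hw]; ring
  have hd3 : a + 1 ∣ a * w := by
    rw [hj] at hd2
    exact Nat.dvd_of_mul_dvd_mul_left (by norm_num) hd2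
  have hcop : Nat.Coprime (a + 1) a := by simp
  have hd4 : a + 1 ∣ w := hcop.dvd_of_dvd_mul_left hd3
  have hw0 : 0 < w := by
    rcases Nat.eq_zero_or_pos w with h | h
    · rw [h] at hj
      omega
    · exact h
  have hw1 : a + 1 ≤ w := Nat.le_of_dvd hw0 hd4
  have hk2 : 2 * (a * (a + 1)) + 1 ≤ k := by
    have h1 : a * (a + 1) ≤ a * w := Nat.mul_le_mul_left a hw1
    omega
  rw [hk]
  calc (2 * a + 1) ^ 3 < 2 * ((2 * a + 1) * (2 * (a * (a + 1)) + 1)) := by nlinarith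
    _ ≤ 2 * ((2 * a + 1) * k) := Nat.mul_le_mul_left _ (Nat.mul_le_mul_left _ hk2)

end Pool.Agent.Lib.MP_2d8e53_nt.K
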