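import Pool.Agent.Lib.MP_2d8e53_nt.K.StmtsK95

/-!
# Module CN: a rigid number has at most `C y / (log y) ^ 2` prime factors up to `y`
-/

set_option autoImplicit false

namespace Pool.Agent.Lib.MP_2d8e53_nt.K

open Finset Real Pool.Agent.Lib.MP_2d8e53_nt.W
open scoped Classical

/-- `√y ≤ 16 y / (log y) ^ 2` for `y ≥ 2`. -/
lemma cn22_sqrt {y : ℝ} (hy : 2 ≤ y) : √y ≤ 16 * y / log y ^ 2 := by
  have h0 : 0 < log y := Real.log_pos (by linarith)
  have h1 : log y ≤ y ^ (1 / 4 : ℝ) / (1 / 4) := Real.log_le_rpow_div (by linarith) (by norm_num)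
  have h2 : log y ^ 2 ≤ 16 * √y := by
    have h3 : log y ^ 2 ≤ (y ^ (1 / 4 : ℝ) / (1 / 4)) ^ 2 := by
      apply pow_le_pow_left₀ h0.le h1
    have h4 : (y ^ (1 / 4 : ℝ)) ^ 2 = √y := by
      rw [Real.sqrt_eq_rpow, ← Real.rpow_natCast, ← Real.rpow_mul (by linarith)]
      norm_num
    calc log y ^ 2 ≤ (y ^ (1 / 4 : ℝ) / (1 / 4)) ^ 2 := h3
      _ = 16 * (y ^ (1 / 4 : ℝ)) ^ 2 := by ring
      _ = 16 * √y := by rw [h4]
  rw [le_div_iff₀ (by positivity)]
  calc √y * log y ^ 2 ≤ √y * (16 * √y) := by gcongr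
    _ = 16 * (√y * √y) := by ring
    _ = 16 * y := by rw [Real.mul_self_sqrt (by linarith)]

theorem stCn_22 (hS : StSv) : StCn := by
  obtain ⟨C, hC, hS⟩ := hS
  refine ⟨C + 16, by linarith, ?_⟩
  intro n hn y hy
  have hy0 : 0 ≤ y := by linarith
  obtain ⟨hn1, hnp, hsq, hr⟩ := hn
  set c : ℕ → ℕ := fun l => if ∃ q : ℕ, q.Prime ∧ q ∣ n ∧ l ∣ q - 1 then l - 1 else 1 with hc
  have hcl : ∀ l : ℕ, l.Prime → 2 < l → ¬ l ∣ c l := by
    intro l hl h2 hd
    simp only [hc] at hd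
    split_ifs at hd with h
    · have := Nat.le_of_dvd (by omega) hd
      omega
    · have := Nat.le_of_dvd (by omega) hd
      omega
  have hmain := hS y c hy hcl
  have hsplit : n.primeFactors.filter (fun p : ℕ => (p : ℝ) ≤ y) ⊆
      Icc 1 ⌊√y⌋₊ ∪ ((Icc 1 ⌊y⌋₊).filter fun m : ℕ => ∀ l : ℕ, l.Prime → 2 < l → (l : ℝ) ^ 2 ≤ y →
        ¬ l ∣ m ∧ ¬ m ≡ c l [MOD l]) := by
    intro p hp
    rw [mem_filter, Nat.mem_primeFactors] at hp
    obtain ⟨⟨hpp, hpn, hn0⟩, hpy⟩ := hp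
    rw [mem_union]
    by_cases hps : (p : ℝ) ≤ √y
    · left
      rw [mem_Icc]
      exact ⟨hpp.one_lt.le, Nat.le_floor hps⟩
    · right
      push Not at hps
      rw [mem_filter, mem_Icc]
      refine ⟨⟨hpp.one_lt.le, Nat.le_floor hpy⟩, ?_⟩
      intro l hl h2 hly
      have hlp : l < p := by
        have h3 : (l : ℝ) ≤ √y := by
          apply Real.le_sqrt_of_sq_le hly
        exact_mod_cast lt_of_le_of_lt h3 hps
      constructor
      · intro hd
        rcases (Nat.dvd_prime hpp).1 hd with h | h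
        · exact hl.one_lt.ne' h
        · omega
      · intro hm
        obtain ⟨hr1, hr2⟩ := hr p hpp hpn
        simp only [hc] at hm
        split_ifs at hm with h
        · obtain ⟨q, hq, hqn, hlq⟩ := h
          have h4 : l ∣ n - 1 := hlq.trans (hr q hq hqn).1
          have h5 : l ∣ p + 1 := by
            have h6 : p + 1 ≡ l - 1 + 1 [MOD l] := hm.add_right 1
            have h7 : l - 1 + 1 = l := by omega
            rw [h7] at h6
            have h8 : p + 1 ≡ 0 [MOD l] := h6.trans (by simp [Nat.ModEq])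
            exact (Nat.modEq_zero_iff_dvd).1 h8
          have h6 : l ∣ n + 1 := h5.trans hr2
          have h7 : l ∣ (n + 1) - (n - 1) := Nat.dvd_sub h6 h4
          have h8 : (n + 1) - (n - 1) = 2 := by omega
          rw [h8] at h7
          have := Nat.le_of_dvd (by norm_num) h7
          omega
        · apply h
          refine ⟨p, hpp, hpn, ?_⟩
          exact (Nat.modEq_iff_dvd' hpp.one_lt.le).1 hm.symm
  have hcard : ((n.primeFactors.filter fun p : ℕ => (p : ℝ) ≤ y).card : ℝ) ≤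
      ((Icc 1 ⌊√y⌋₊).card : ℝ) + (((Icc 1 ⌊y⌋₊).filter fun m : ℕ => ∀ l : ℕ, l.Prime → 2 < l →
        (l : ℝ) ^ 2 ≤ y → ¬ l ∣ m ∧ ¬ m ≡ c l [MOD l]).card : ℝ) := by
    have := (card_le_card hsplit).trans (card_union_le _ _)
    exact_mod_cast this
  have h9 : ((Icc 1 ⌊√y⌋₊).card : ℝ) ≤ √y := by
    rw [Nat.card_Icc, Nat.add_sub_cancel]
    exact Nat.floor_le (Real.sqrt_nonneg y)
  calc ((n.primeFactors.filter fun p : ℕ => (p : ℝ) ≤ y).card : ℝ)
      ≤ √y + C * y / log y ^ 2 := by linarith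
    _ ≤ 16 * y / log y ^ 2 + C * y / log y ^ 2 := by
        have := cn22_sqrt hy
        linarith
    _ = (C + 16) * y / log y ^ 2 := by ring

end Pool.Agent.Lib.MP_2d8e53_nt.K
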