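import Pool.Agent.Lib.MP_2d8e53_nt.K.Sel95
import Pool.Agent.Lib.MP_2d8e53_nt.K.A95

set_option autoImplicit false

namespace Pool.Agent.Lib.MP_2d8e53_nt.K

open Finset Real Pool.Agent.Lib.MP_2d8e53_nt.W
open scoped Classical

theorem stFew_95 (hS : StSel) (hA : StA) (hB1 : StB1) (hB2 : StB2) : StFew := by
  intro δ ε hδ hδ2 hε
  set θ := max (δ / 2) (δ - ε / 8) with hθ
  set η := ε / 8 with hη
  have hη0 : 0 < η := by rw [hη]; linarith
  have hθ0 : 0 < θ := lt_of_lt_of_le (by linarith) (le_max_left _ _)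
  have hθδ : θ < δ := max_lt (by linarith) (by linarith)
  have hθε : δ - ε / 8 ≤ θ := le_max_right _ _
  obtain ⟨X₁, h1⟩ := hA θ δ η hθ0 hθδ hδ2 hη0
  obtain ⟨X₂, h2⟩ := hB1 η (ε / 2) hη0 (by linarith)
  obtain ⟨X₃, h3⟩ := hB2 θ η hθ0 (by linarith) hη0
  have h4 : ∃ X₄ : ℕ, ∀ X : ℕ, X₄ ≤ X → (3 : ℝ) ≤ (X : ℝ) ^ (ε / 2) := by
    have := (tendsto_rpow_atTop (show (0 : ℝ) < ε / 2 by linarith)).comp
      tendsto_natCast_atTop_atTop
    exact Filter.eventually_atTop.1 (this.eventually_ge_atTop 3)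
  obtain ⟨X₄, h4⟩ := h4
  refine ⟨max (max (max X₁ X₂) (max X₃ X₄)) 1, fun X hX => ?_⟩
  have hX1 : X₁ ≤ X := by omega
  have hX2 : X₂ ≤ X := by omega
  have hX3 : X₃ ≤ X := by omega
  have hX4 : X₄ ≤ X := by omega
  have hX5 : 1 ≤ X := by omega
  have hXr : (1 : ℝ) ≤ X := by exact_mod_cast hX5
  have hX0 : (0 : ℝ) < X := by linarith
  set SA := (Icc 1 X).filter fun n => Rig n ∧ (n.primeFactors.card : ℝ) ≤ log X ^ (1 - δ) ∧
    F (Lg n (exp (log X ^ θ))) ≤ X with hSA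
  set SB1 := (Icc 1 X).filter fun n => ∃ p : ℕ, Crs X n p ∧ (X : ℝ) ^ η ≤ p with hSB1
  set SB2 := (Icc 1 X).filter fun n => ∃ p : ℕ, Crs X n p ∧ exp (log X ^ θ) ≤ p ∧
    (p : ℝ) ≤ (X : ℝ) ^ η with hSB2
  have hsub : ((Icc 1 X).filter fun n => Rig n ∧ (n.primeFactors.card : ℝ) ≤ log X ^ (1 - δ)) ⊆
      SA ∪ (SB1 ∪ SB2) := by
    intro n hn
    rw [mem_filter] at hn
    obtain ⟨hn1, hR, hc⟩ := hn
    rw [mem_union, mem_union]
    rcases hS X n (exp (log X ^ θ)) hX5 hR with h | ⟨p, hp, hy⟩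
    · left
      rw [hSA, mem_filter]
      exact ⟨hn1, hR, hc, h⟩
    · right
      rcases le_total ((X : ℝ) ^ η) p with h | h
      · left
        rw [hSB1, mem_filter]
        exact ⟨hn1, p, hp, h⟩
      · right
        rw [hSB2, mem_filter]
        exact ⟨hn1, p, hp, hy, h⟩
  have hcard := (card_le_card hsub).trans ((card_union_le _ _).trans
    (Nat.add_le_add_left (card_union_le _ _) _))
  have hcard' : ((((Icc 1 X).filter fun n => Rig n ∧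
      (n.primeFactors.card : ℝ) ≤ log X ^ (1 - δ)).card : ℕ) : ℝ) ≤
      (SA.card : ℝ) + ((SB1.card : ℝ) + (SB2.card : ℝ)) := by exact_mod_cast hcard
  have k1 : (SA.card : ℝ) ≤ (X : ℝ) ^ (1 - δ + ε / 2) :=
    (h1 X hX1).trans (rpow_le_rpow_of_exponent_le hXr (by rw [hη]; linarith))
  have k2 : (SB1.card : ℝ) ≤ (X : ℝ) ^ (1 - δ + ε / 2) :=
    (h2 X hX2).trans (rpow_le_rpow_of_exponent_le hXr (by linarith))
  have k3 : (SB2.card : ℝ) ≤ (X : ℝ) ^ (1 - δ + ε / 2) :=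
    (h3 X hX3).trans (rpow_le_rpow_of_exponent_le hXr (by rw [hη]; linarith))
  have k4 := h4 X hX4
  have k5 : (0 : ℝ) ≤ (X : ℝ) ^ (1 - δ + ε / 2) := rpow_nonneg hX0.le _
  calc ((((Icc 1 X).filter fun n => Rig n ∧
      (n.primeFactors.card : ℝ) ≤ log X ^ (1 - δ)).card : ℕ) : ℝ)
      ≤ 3 * (X : ℝ) ^ (1 - δ + ε / 2) := by linarith
    _ ≤ (X : ℝ) ^ (ε / 2) * (X : ℝ) ^ (1 - δ + ε / 2) := mul_le_mul_of_nonneg_right k4 k5
    _ = (X : ℝ) ^ (1 - δ + ε) := by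
        rw [← rpow_add hX0]
        congr 1
        ring

end Pool.Agent.Lib.MP_2d8e53_nt.K
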