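import Pool.Agent.Lib.MP_2d8e53_nt.K.StmtsK95
import Pool.Agent.Lib.MP_2d8e53_nt.W.Rk61
import Pool.Agent.Lib.MP_2d8e53_nt.W.Eu12

set_option autoImplicit false

namespace Pool.Agent.Lib.MP_2d8e53_nt.K

open Finset Real Pool.Agent.Lib.MP_2d8e53_nt.W
open scoped Classical

theorem sum_rpow_95 {s : ℝ} (h0 : 0 < s) (h1 : s ≤ 1) (N : ℕ) :
    ∑ j ∈ Icc 1 N, (j : ℝ) ^ (s - 1) ≤ (N : ℝ) ^ s / s := by
  induction N with
  | zero => simp [h0.ne']
  | succ N ih =>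
    rw [sum_Icc_succ_top (by omega)]
    have hN : (0 : ℝ) < ((N + 1 : ℕ) : ℝ) := by positivity
    have key : (N : ℝ) ^ s ≤ ((N + 1 : ℕ) : ℝ) ^ s - s * ((N + 1 : ℕ) : ℝ) ^ (s - 1) := by
      have hb := _root_.rpow_one_add_le_one_add_mul_self
        (s := -(((N + 1 : ℕ) : ℝ))⁻¹) (p := s)
        (by
          rw [neg_le_neg_iff]
          apply inv_le_one_of_one_le₀
          push_cast
          have : (0 : ℝ) ≤ N := by positivity
          linarith) h0.le h1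
      have e1 : (1 + -(((N + 1 : ℕ) : ℝ))⁻¹) = (N : ℝ) / ((N + 1 : ℕ) : ℝ) := by
        field_simp
        push_cast
        ring
      rw [e1, div_rpow (Nat.cast_nonneg _) hN.le, div_le_iff₀ (rpow_pos_of_pos hN _)] at hb
      have e2 : ((N + 1 : ℕ) : ℝ) ^ (s - 1) = (((N + 1 : ℕ) : ℝ))⁻¹ * ((N + 1 : ℕ) : ℝ) ^ s := by
        rw [rpow_sub_one hN.ne', div_eq_inv_mul]
      rw [e2]
      calc (N : ℝ) ^ s ≤ _ := hb
        _ = _ := by ring
    have h3 : (N : ℝ) ^ s / s + ((N + 1 : ℕ) : ℝ) ^ (s - 1) ≤ ((N + 1 : ℕ) : ℝ) ^ s / s := by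
      rw [le_div_iff₀ h0, add_mul, div_mul_cancel₀ _ h0.ne']
      nlinarith
    linarith

theorem ep_le_95 {s z : ℝ} (h0 : 0 < s) (h1 : s ≤ 1 / 2) (hz : 3 ≤ z) {m : ℕ} (hm : 1 ≤ m)
    (hmz : log m ≤ z) : EP s m ≤ exp (2 * (z ^ s * (1 / s + 1))) := by
  refine (eu12_EP h1 m).trans (exp_le_exp.2 ?_)
  have hsplit := sum_filter_add_sum_filter_not m.primeFactors (fun q : ℕ => z < (q : ℝ))
    (fun q : ℕ => (q : ℝ) ^ (s - 1))
  rw [← hsplit]
  have h2 := eu12_big (z := z) (δ := s) (by linarith) (by linarith) hm hmz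
  have hlz : 1 ≤ log z := by
    rw [le_log_iff_exp_le (by linarith)]
    have := exp_one_lt_d9
    linarith
  have h3 : z ^ s / log z ≤ z ^ s := div_le_self (by positivity) hlz
  have h4 : ∑ q ∈ m.primeFactors.filter (fun q : ℕ => ¬ z < (q : ℝ)), (q : ℝ) ^ (s - 1) ≤
      z ^ s / s := by
    calc ∑ q ∈ m.primeFactors.filter (fun q : ℕ => ¬ z < (q : ℝ)), (q : ℝ) ^ (s - 1)
        ≤ ∑ j ∈ Icc 1 ⌊z⌋₊, (j : ℝ) ^ (s - 1) := by
          apply sum_le_sum_of_subset_of_nonneg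
          · intro q hq
            rw [mem_filter] at hq
            rw [mem_Icc]
            exact ⟨(Nat.prime_of_mem_primeFactors hq.1).pos, Nat.le_floor (not_lt.1 hq.2)⟩
          · intro i _ _
            positivity
      _ ≤ ((⌊z⌋₊ : ℕ) : ℝ) ^ s / s := sum_rpow_95 h0 (by linarith) _
      _ ≤ z ^ s / s := by
          apply div_le_div_of_nonneg_right _ h0.le
          exact rpow_le_rpow (Nat.cast_nonneg _) (Nat.floor_le (by linarith)) h0.le
  have h5 : z ^ s * (1 / s + 1) = z ^ s / s + z ^ s := by ring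
  rw [h5]
  linarith

theorem card_le_95 (P : Finset ℕ) (σ T : ℝ) (hσ : 0 ≤ σ) (hT : 0 < T) (D : Finset ℕ)
    (hD : ∀ d ∈ D, 1 ≤ d ∧ (d : ℝ) ≤ T ∧ Squarefree d ∧ d.primeFactors ⊆ P)
    (hsum : ∑ p ∈ P, (p : ℝ) ^ (-σ) ≤ 1) : (D.card : ℝ) ≤ 3 * T ^ σ := by
  have hterm : ∀ d ∈ D, (1 : ℝ) ≤ T ^ σ * ∏ p ∈ d.primeFactors, (p : ℝ) ^ (-σ) := by
    intro d hd
    obtain ⟨h1, h2, h3, _⟩ := hD d hd
    have hd : (0 : ℝ) < d := by exact_mod_cast h1
    have e1 : ∏ p ∈ d.primeFactors, (p : ℝ) ^ (-σ) = (d : ℝ) ^ (-σ) := by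
      rw [finsetProd_rpow _ _ (fun i _ => Nat.cast_nonneg i), ← Nat.cast_prod,
        Nat.prod_primeFactors_of_squarefree h3]
    rw [e1, rpow_neg hd.le, ← div_eq_mul_inv, le_div_iff₀ (rpow_pos_of_pos hd _), one_mul]
    exact rpow_le_rpow hd.le h2 hσ
  calc (D.card : ℝ) = ∑ d ∈ D, (1 : ℝ) := by simp
    _ ≤ ∑ d ∈ D, T ^ σ * ∏ p ∈ d.primeFactors, (p : ℝ) ^ (-σ) := sum_le_sum hterm
    _ = T ^ σ * ∑ d ∈ D, ∏ p ∈ d.primeFactors, (p : ℝ) ^ (-σ) := by rw [mul_sum]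
    _ ≤ T ^ σ * ∑ S ∈ P.powerset, ∏ p ∈ S, (p : ℝ) ^ (-σ) := by
        apply mul_le_mul_of_nonneg_left _ (by positivity)
        have hinj : Set.InjOn (fun d : ℕ => d.primeFactors) D := by
          intro d hd e he hde
          rw [← Nat.prod_primeFactors_of_squarefree (hD d hd).2.2.1,
            ← Nat.prod_primeFactors_of_squarefree (hD e he).2.2.1]
          simp only at hde
          rw [hde]
        refine le_trans (le_of_eq (sum_image (f := fun S : Finset ℕ => ∏ p ∈ S, (p : ℝ) ^ (-σ))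
          hinj).symm) ?_
        apply sum_le_sum_of_subset_of_nonneg
        · intro S hS
          obtain ⟨d, hd, rfl⟩ := mem_image.1 hS
          exact mem_powerset.2 (hD d hd).2.2.2
        · intro S _ _
          exact prod_nonneg fun p _ => by positivity
    _ = T ^ σ * ∏ p ∈ P, (1 + (p : ℝ) ^ (-σ)) := by rw [Finset.prod_one_add]
    _ ≤ T ^ σ * exp (∑ p ∈ P, (p : ℝ) ^ (-σ)) := by
        apply mul_le_mul_of_nonneg_left _ (by positivity)
        rw [exp_sum]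
        apply prod_le_prod (fun p _ => by positivity)
        intro p _
        have := add_one_le_exp ((p : ℝ) ^ (-σ))
        linarith
    _ ≤ T ^ σ * 3 := by
        apply mul_le_mul_of_nonneg_left _ (by positivity)
        have h1 := exp_le_exp.2 hsum
        have h2 := exp_one_lt_d9
        linarith
    _ = 3 * T ^ σ := by ring

/-- The sum over the primes `p` with `p - 1 ∣ m` or with `p + 1 ∣ m`. -/
theorem sum_pm_95 (s η y : ℝ) (hη : 0 ≤ η) (hs0 : 0 ≤ s) (hs1 : s ≤ 1) (hy : 0 < y) (m : ℕ)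
    (hm : 1 ≤ m) (P : Finset ℕ) (g : ℕ → ℕ) (hg : Set.InjOn g P)
    (hP : ∀ p ∈ P, p.Prime ∧ y ≤ (p : ℝ) ∧ g p ∣ m ∧ g p ≤ p + 1) :
    ∑ p ∈ P, (p : ℝ) ^ (-(1 - s + η)) ≤ 2 * y ^ (-η) * ∑ a ∈ m.divisors, (a : ℝ) ^ (s - 1) := by
  have h1 : ∀ p ∈ P, (p : ℝ) ^ (-(1 - s + η)) ≤ 2 * y ^ (-η) * ((g p : ℕ) : ℝ) ^ (s - 1) := by
    intro p hp
    obtain ⟨hpp, hyp, hgm, hgp⟩ := hP p hp
    have hp0 : (0 : ℝ) < p := by exact_mod_cast hpp.pos
    have hg0 : 0 < g p := Nat.pos_of_dvd_of_pos hgm (by omega)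
    have hg0' : (0 : ℝ) < g p := by exact_mod_cast hg0
    have hgp' : (g p : ℝ) ≤ 2 * p := by
      have h2 := hpp.two_le
      have : g p ≤ 2 * p := by omega
      exact_mod_cast this
    have e1 : (p : ℝ) ^ (-(1 - s + η)) = (p : ℝ) ^ (s - 1) * (p : ℝ) ^ (-η) := by
      rw [← rpow_add hp0]
      congr 1
      ring
    have e2 : (p : ℝ) ^ (-η) ≤ y ^ (-η) := rpow_le_rpow_of_nonpos hy hyp (by linarith)
    have e3 : (p : ℝ) ^ (s - 1) ≤ 2 * (g p : ℝ) ^ (s - 1) := by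
      have e4 : (p : ℝ) ^ (s - 1) ≤ ((g p : ℝ) / 2) ^ (s - 1) :=
        rpow_le_rpow_of_nonpos (by positivity) (by linarith) (by linarith)
      refine e4.trans ?_
      rw [div_rpow hg0'.le (by norm_num)]
      have e5 : (1 / 2 : ℝ) ≤ (2 : ℝ) ^ (s - 1) := by
        calc (1 / 2 : ℝ) = (2 : ℝ) ^ (-1 : ℝ) := by rw [rpow_neg_one]; norm_num
          _ ≤ (2 : ℝ) ^ (s - 1) := rpow_le_rpow_of_exponent_le (by norm_num) (by linarith)
      rw [div_le_iff₀ (by positivity)]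
      have e6 : (0 : ℝ) ≤ (g p : ℝ) ^ (s - 1) := by positivity
      nlinarith
    rw [e1]
    calc (p : ℝ) ^ (s - 1) * (p : ℝ) ^ (-η) ≤ (2 * (g p : ℝ) ^ (s - 1)) * y ^ (-η) :=
          mul_le_mul e3 e2 (by positivity) (by positivity)
      _ = 2 * y ^ (-η) * ((g p : ℕ) : ℝ) ^ (s - 1) := by ring
  calc ∑ p ∈ P, (p : ℝ) ^ (-(1 - s + η))
      ≤ ∑ p ∈ P, 2 * y ^ (-η) * ((g p : ℕ) : ℝ) ^ (s - 1) := sum_le_sum h1
    _ = 2 * y ^ (-η) * ∑ p ∈ P, ((g p : ℕ) : ℝ) ^ (s - 1) := by rw [mul_sum]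
    _ ≤ 2 * y ^ (-η) * ∑ a ∈ m.divisors, (a : ℝ) ^ (s - 1) := by
        apply mul_le_mul_of_nonneg_left _ (by positivity)
        refine le_trans (le_of_eq (sum_image (f := fun a : ℕ => (a : ℝ) ^ (s - 1)) hg).symm) ?_
        apply sum_le_sum_of_subset_of_nonneg
        · intro a ha
          obtain ⟨p, hp, rfl⟩ := mem_image.1 ha
          exact Nat.mem_divisors.2 ⟨(hP p hp).2.2.1, by omega⟩
        · intro a _ _
          positivity

/-- The parameter `X` large. -/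
theorem large_95 (θ η : ℝ) (hη : 0 < η) (hηθ : η < θ) :
    ∃ X₀ : ℕ, ∀ X : ℕ, X₀ ≤ X → 3 ≤ log (2 * X : ℝ) ∧
      2 * exp (log X ^ θ) ^ (-(η / 2)) *
        exp (2 * (log (2 * X : ℝ) ^ (θ - η / 2) * (1 / (θ - η / 2) + 1))) ≤ 1 := by
  have h1 : Filter.Tendsto (fun X : ℕ => log (X : ℝ)) Filter.atTop Filter.atTop :=
    tendsto_log_atTop.comp tendsto_natCast_atTop_atTop
  set s := θ - η / 2 with hs
  have hs0 : 0 < s := by rw [hs]; linarith
  set B := 2 * (1 / s + 1) with hB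
  have hB0 : 0 < B := by rw [hB]; positivity
  -- `(2 L) ^ s B + 1 ≤ (η / 2) L ^ θ`
  have h2 : Filter.Tendsto (fun L : ℝ => L ^ (-(η / 2))) Filter.atTop (nhds 0) :=
    tendsto_rpow_neg_atTop (by linarith)
  have h3 : ∀ᶠ L : ℝ in Filter.atTop, L ^ (-(η / 2)) ≤ η / (4 * B * 2 ^ s) :=
    h2.eventually_le_const (by positivity)
  have h4 : ∀ᶠ L : ℝ in Filter.atTop, 4 / η ≤ L ^ θ :=
    (tendsto_rpow_atTop (by linarith : 0 < θ)).eventually_ge_atTop _
  have h5 := h1.eventually ((h3.and h4).and (Filter.eventually_ge_atTop 3))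
  obtain ⟨X₀, hX₀⟩ := Filter.eventually_atTop.1 h5
  refine ⟨X₀, fun X hX => ?_⟩
  obtain ⟨⟨k3, k4⟩, k5⟩ := hX₀ X hX
  have hL : 0 < log (X : ℝ) := by linarith
  have hXpos : (0 : ℝ) < X := by
    by_contra hcon
    have h0 : (X : ℝ) = 0 := le_antisymm (not_lt.1 hcon) (Nat.cast_nonneg _)
    rw [h0, log_zero] at k5
    linarith
  have hlog2 : log (2 * X : ℝ) = log 2 + log X := log_mul (by norm_num) hXpos.ne'
  have hl2 : 0 < log (2 : ℝ) := log_pos (by norm_num)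
  have hl2' : log (2 : ℝ) < 1 := by
    have := log_two_lt_d9
    linarith
  refine ⟨by rw [hlog2]; linarith, ?_⟩
  have k6 : log (2 * X : ℝ) ^ s ≤ 2 ^ s * log X ^ s := by
    rw [← mul_rpow (by norm_num) hL.le]
    exact rpow_le_rpow (by rw [hlog2]; linarith) (by rw [hlog2]; linarith) hs0.le
  have k7 : B * (2 ^ s * log X ^ s) ≤ η / 4 * log X ^ θ := by
    have e1 : log (X : ℝ) ^ s = log X ^ θ * log X ^ (-(η / 2)) := by
      rw [← rpow_add hL]
      congr 1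
    rw [e1]
    have e2 : log (X : ℝ) ^ (-(η / 2)) * (4 * B * 2 ^ s) ≤ η := by
      rwa [le_div_iff₀ (by positivity)] at k3
    have e3 : (0 : ℝ) < log (X : ℝ) ^ θ := by positivity
    nlinarith
  have k8 : 1 ≤ η / 4 * log X ^ θ := by
    rw [div_le_iff₀ hη] at k4
    linarith
  have k9 : 2 * (log (2 * X : ℝ) ^ s * (1 / s + 1)) ≤ B * (2 ^ s * log X ^ s) := by
    rw [hB]
    have : (0 : ℝ) < 1 / s + 1 := by positivity
    nlinarith
  have k10 : (2 : ℝ) ≤ exp 1 := by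
    have := add_one_le_exp (1 : ℝ)
    linarith
  rw [← exp_mul]
  calc 2 * exp (log X ^ θ * -(η / 2)) * exp (2 * (log (2 * X : ℝ) ^ s * (1 / s + 1)))
      ≤ exp 1 * exp (log X ^ θ * -(η / 2)) * exp (2 * (log (2 * X : ℝ) ^ s * (1 / s + 1))) := by
        apply mul_le_mul_of_nonneg_right _ (exp_nonneg _)
        exact mul_le_mul_of_nonneg_right k10 (exp_nonneg _)
    _ = exp (1 + log X ^ θ * -(η / 2) + 2 * (log (2 * X : ℝ) ^ s * (1 / s + 1))) := by
        rw [exp_add, exp_add]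
    _ ≤ 1 := by
        rw [exp_le_one_iff]
        nlinarith

theorem ran_aux_95 (θ η : ℝ) (hθ2 : θ ≤ 1 / 2) (hη : 0 < η) (hηθ : η < θ)
    (X : ℕ) (hX3 : 3 ≤ log (2 * X : ℝ))
    (hX : 2 * exp (log X ^ θ) ^ (-(η / 2)) *
        exp (2 * (log (2 * X : ℝ) ^ (θ - η / 2) * (1 / (θ - η / 2) + 1))) ≤ 1)
    (m : ℕ) (hm : 1 ≤ m) (hmX : m ≤ 2 * X) (T : ℝ) (hT : 1 ≤ T) (g : ℕ → ℕ)
    (hgi : Set.InjOn g {p | p.Prime}) (hg1 : ∀ p, g p ≤ p + 1) :
    (((Icc 1 ⌊T⌋₊).filter fun d => Squarefree d ∧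
      ∀ p : ℕ, p.Prime → p ∣ d → exp (log X ^ θ) ≤ p ∧ g p ∣ m).card : ℝ) ≤
        3 * T ^ (1 - θ + η) := by
  set P := (Icc 1 ⌊T⌋₊).filter (fun p : ℕ => p.Prime ∧ exp (log X ^ θ) ≤ (p : ℝ) ∧ g p ∣ m) with hP
  have hs0 : 0 < θ - η / 2 := by linarith
  have hX0 : (0 : ℝ) < 2 * X := by
    by_contra hcon
    have h0 : (2 * X : ℝ) = 0 := le_antisymm (not_lt.1 hcon) (by positivity)
    rw [h0, log_zero] at hX3
    linarith
  have hsum : ∑ p ∈ P, (p : ℝ) ^ (-(1 - θ + η)) ≤ 1 := by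
    have h1 := sum_pm_95 (θ - η / 2) (η / 2) (exp (log X ^ θ)) (by linarith) hs0.le
      (by linarith) (exp_pos _) m hm P g (by
        intro p hp q hq hpq
        exact hgi ((mem_filter.1 hp).2.1) ((mem_filter.1 hq).2.1) hpq)
      (fun p hp => ⟨(mem_filter.1 hp).2.1, (mem_filter.1 hp).2.2.1, (mem_filter.1 hp).2.2.2,
        hg1 p⟩)
    have e1 : 1 - (θ - η / 2) + η / 2 = 1 - θ + η := by ring
    rw [e1] at h1
    refine h1.trans (le_trans ?_ hX)
    apply mul_le_mul_of_nonneg_left _ (by positivity)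
    refine ((stRk_61 (θ - η / 2) m hs0.le (by linarith) hm).2.1).trans ?_
    apply ep_le_95 hs0 (by linarith) hX3 hm
    apply log_le_log (by exact_mod_cast hm)
    exact_mod_cast hmX
  refine card_le_95 P (1 - θ + η) T (by linarith) (by linarith) _ ?_ hsum
  intro d hd
  rw [mem_filter, mem_Icc] at hd
  obtain ⟨⟨hd1, hdT⟩, hsq, hpd⟩ := hd
  refine ⟨hd1, ?_, hsq, ?_⟩
  · exact (Nat.cast_le.2 hdT).trans (Nat.floor_le (by linarith))
  · intro p hp
    have hpp := Nat.prime_of_mem_primeFactors hp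
    have hpd' := Nat.dvd_of_mem_primeFactors hp
    rw [hP, mem_filter, mem_Icc]
    exact ⟨⟨hpp.pos, (Nat.le_of_dvd hd1 hpd').trans hdT⟩, hpp, hpd p hpp hpd'⟩

theorem stRan_95 : StRan := by
  intro θ η hθ hθ2 hη
  rcases lt_or_ge η θ with hηθ | hηθ
  · obtain ⟨X₀, hX₀⟩ := large_95 θ η hη hηθ
    refine ⟨X₀, fun X hX m hm hmX T hT => ?_⟩
    obtain ⟨k1, k2⟩ := hX₀ X hX
    constructor
    · exact ran_aux_95 θ η hθ2 hη hηθ X k1 k2 m hm hmX T hT (fun p => p - 1) (by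
        intro p hp q hq hpq
        have h1 : p.Prime := hp
        have h2 : q.Prime := hq
        have h3 := h1.two_le
        have h4 := h2.two_le
        simp only at hpq
        omega) (fun p => by omega)
    · exact ran_aux_95 θ η hθ2 hη hηθ X k1 k2 m hm hmX T hT (fun p => p + 1) (by
        intro p hp q hq hpq
        simp only at hpq
        omega) (fun p => by omega)
  · refine ⟨0, fun X _ m _ _ T hT => ?_⟩
    have h2 : ((Icc 1 ⌊T⌋₊).card : ℝ) ≤ T := by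
      rw [Nat.card_Icc, Nat.add_sub_cancel]
      exact Nat.floor_le (by linarith)
    have h3 : T ≤ T ^ (1 - θ + η) := by
      calc T = T ^ (1 : ℝ) := (rpow_one T).symm
        _ ≤ T ^ (1 - θ + η) := rpow_le_rpow_of_exponent_le hT (by linarith)
    constructor
    · refine le_trans (Nat.cast_le.2 (card_filter_le _ _)) ?_
      linarith
    · refine le_trans (Nat.cast_le.2 (card_filter_le _ _)) ?_
      linarith

end Pool.Agent.Lib.MP_2d8e53_nt.K
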