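import Pool.Agent.Lib.MP_2d8e53_nt.K.Few95
import Pool.Agent.Lib.MP_2d8e53_nt.K.B1_95
import Pool.Agent.Lib.MP_2d8e53_nt.K.Cls95
import Pool.Agent.Lib.MP_2d8e53_nt.K.Ran95

/-!
# Few prime factors
-/

set_option autoImplicit false

namespace Pool.Agent.Lib.MP_2d8e53_nt.K

theorem stFewAll_95 : StFew :=
  stFew_95 stSel_95 (stA_95 (stN0_31 stRan_95)) (stB1_95 stCls_95 stTop_95 stTau_46)
    (stB2_46 stCls_95 (stN0_31 stRan_95))

end Pool.Agent.Lib.MP_2d8e53_nt.K
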