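import Pool.Agent.Lib.MP_2d8e53_nt.K.StmtsK95

/-!
# Module PH: `n ≤ C φ n` for rigid `n`
-/

set_option autoImplicit false

namespace Pool.Agent.Lib.MP_2d8e53_nt.K

open Finset Real Pool.Agent.Lib.MP_2d8e53_nt.W
open scoped Classical

lemma ph22_sum1 (J : ℕ) : ∑ j ∈ range (J + 1), 1 / ((j : ℝ) + 1) ^ 2 ≤ 2 - 1 / ((J : ℝ) + 1) := by
  induction J with
  | zero => norm_num
  | succ J ih =>
    rw [sum_range_succ]
    have hJ : (0 : ℝ) ≤ (J : ℝ) := Nat.cast_nonneg J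
    push_cast
    have h1 : 1 / ((J : ℝ) + 1 + 1) ^ 2 ≤ 1 / ((J : ℝ) + 1) - 1 / ((J : ℝ) + 1 + 1) := by
      have h2 : 1 / ((J : ℝ) + 1) - 1 / ((J : ℝ) + 1 + 1) = 1 / (((J : ℝ) + 1) * ((J : ℝ) + 1 + 1)) := by
        field_simp
        ring
      rw [h2]
      apply one_div_le_one_div_of_le
      · positivity
      · nlinarith
    linarith

lemma ph22_sum (J : ℕ) : ∑ j ∈ range J, 1 / ((j : ℝ) + 1) ^ 2 ≤ 2 := by
  rcases J with _ | J
  · norm_num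
  · have := ph22_sum1 J
    have h : 0 ≤ 1 / ((J : ℝ) + 1) := by positivity
    linarith

/-- The sum of the reciprocals of the prime factors is bounded. -/
lemma ph22_rec {C : ℝ} (hC : 0 < C) (S : Finset ℕ) (hS : ∀ p ∈ S, 1 ≤ p)
    (h : ∀ y : ℝ, 2 ≤ y → ((S.filter fun p : ℕ => (p : ℝ) ≤ y).card : ℝ) ≤ C * y / log y ^ 2) :
    ∑ p ∈ S, 1 / (p : ℝ) ≤ 4 * C / log 2 ^ 2 := by
  have hl2 : 0 < log (2 : ℝ) := Real.log_pos (by norm_num)
  obtain ⟨J, hJ⟩ : ∃ J : ℕ, ∀ p ∈ S, Nat.log 2 p < J := by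
    refine ⟨S.sup (fun p => Nat.log 2 p) + 1, fun p hp => ?_⟩
    have := Finset.le_sup (f := fun p => Nat.log 2 p) hp
    omega
  have h1 : ∑ p ∈ S, 1 / (p : ℝ) = ∑ j ∈ range J, ∑ p ∈ S.filter (fun p => Nat.log 2 p = j), 1 / (p : ℝ) := by
    rw [Finset.sum_fiberwise_of_maps_to]
    intro p hp
    rw [mem_range]
    exact hJ p hp
  rw [h1]
  have h2 : ∀ j ∈ range J, ∑ p ∈ S.filter (fun p => Nat.log 2 p = j), 1 / (p : ℝ) ≤
      (2 * C / log 2 ^ 2) * (1 / ((j : ℝ) + 1) ^ 2) := by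
    intro j _
    have h3 : ∀ p ∈ S.filter (fun p => Nat.log 2 p = j), 1 / (p : ℝ) ≤ 1 / (2 : ℝ) ^ j := by
      intro p hp
      rw [mem_filter] at hp
      apply one_div_le_one_div_of_le (by positivity)
      have h4 : 2 ^ Nat.log 2 p ≤ p := Nat.pow_log_le_self 2 (by have := hS p hp.1; omega)
      rw [hp.2] at h4
      exact_mod_cast h4
    have h5 : ((S.filter (fun p => Nat.log 2 p = j)).card : ℝ) ≤
        ((S.filter fun p : ℕ => (p : ℝ) ≤ (2 : ℝ) ^ (j + 1)).card : ℝ) := by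
      have : S.filter (fun p => Nat.log 2 p = j) ⊆ S.filter fun p : ℕ => (p : ℝ) ≤ (2 : ℝ) ^ (j + 1) := by
        intro p hp
        rw [mem_filter] at hp ⊢
        refine ⟨hp.1, ?_⟩
        have h6 : p < 2 ^ (Nat.log 2 p).succ := Nat.lt_pow_succ_log_self (by norm_num) p
        rw [hp.2] at h6
        exact_mod_cast h6.le
      exact_mod_cast card_le_card this
    have h7 : (2 : ℝ) ≤ 2 ^ (j + 1) := by
      rw [pow_succ]
      have : (1 : ℝ) ≤ 2 ^ j := one_le_pow₀ (by norm_num)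
      linarith
    have h8 := h ((2 : ℝ) ^ (j + 1)) h7
    rw [Real.log_pow] at h8
    calc ∑ p ∈ S.filter (fun p => Nat.log 2 p = j), 1 / (p : ℝ)
        ≤ ∑ p ∈ S.filter (fun p => Nat.log 2 p = j), 1 / (2 : ℝ) ^ j := Finset.sum_le_sum h3
      _ = ((S.filter (fun p => Nat.log 2 p = j)).card : ℝ) * (1 / (2 : ℝ) ^ j) := by
          rw [sum_const, nsmul_eq_mul]
      _ ≤ (C * (2 : ℝ) ^ (j + 1) / (((j + 1 : ℕ) : ℝ) * log 2) ^ 2) * (1 / (2 : ℝ) ^ j) := by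
          gcongr
          linarith
      _ = (2 * C / log 2 ^ 2) * (1 / ((j : ℝ) + 1) ^ 2) := by
          push_cast
          have : ((j : ℝ) + 1) ≠ 0 := by positivity
          field_simp
          ring
  calc ∑ j ∈ range J, ∑ p ∈ S.filter (fun p => Nat.log 2 p = j), 1 / (p : ℝ)
      ≤ ∑ j ∈ range J, (2 * C / log 2 ^ 2) * (1 / ((j : ℝ) + 1) ^ 2) := Finset.sum_le_sum h2
    _ = (2 * C / log 2 ^ 2) * ∑ j ∈ range J, 1 / ((j : ℝ) + 1) ^ 2 := by rw [mul_sum]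
    _ ≤ (2 * C / log 2 ^ 2) * 2 := by
        apply mul_le_mul_of_nonneg_left (ph22_sum J)
        positivity
    _ = 4 * C / log 2 ^ 2 := by ring

/-- `n ≤ exp (2 ∑ 1 / p) φ n`. -/
lemma ph22_tot (n : ℕ) :
    (n : ℝ) ≤ exp (2 * ∑ p ∈ n.primeFactors, 1 / (p : ℝ)) * n.totient := by
  have h1 : ((n.totient : ℕ) : ℝ) = n * ∏ p ∈ n.primeFactors, (1 - (p : ℝ)⁻¹) := by
    have := Nat.totient_eq_mul_prod_factors n
    have h2 : (((n.totient : ℕ) : ℚ) : ℝ) = ((n * ∏ p ∈ n.primeFactors, (1 - (p : ℚ)⁻¹) : ℚ) : ℝ) := by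
      rw [this]
    push_cast at h2
    exact h2
  have h3 : (1 : ℝ) ≤ exp (2 * ∑ p ∈ n.primeFactors, 1 / (p : ℝ)) * ∏ p ∈ n.primeFactors, (1 - (p : ℝ)⁻¹) := by
    rw [mul_sum, Real.exp_sum, ← prod_mul_distrib]
    have h4 : ∏ p ∈ n.primeFactors, (1 : ℝ) ≤
        ∏ p ∈ n.primeFactors, (exp (2 * (1 / (p : ℝ))) * (1 - (p : ℝ)⁻¹)) := by
      apply Finset.prod_le_prod (fun _ _ => zero_le_one)
      intro p hp
      have hp2 : (2 : ℝ) ≤ p := by exact_mod_cast (Nat.prime_of_mem_primeFactors hp).two_le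
      set x : ℝ := (p : ℝ)⁻¹ with hx
      have hx0 : 0 < x := by positivity
      have hx1 : x ≤ 1 / 2 := by
        rw [hx, inv_le_comm₀ (by linarith) (by norm_num)]
        linarith
      have h5 : 1 / (p : ℝ) = x := by rw [hx, one_div]
      rw [h5]
      have h6 : 2 * x + 1 ≤ exp (2 * x) := Real.add_one_le_exp _
      nlinarith
    rwa [prod_const_one] at h4
  rw [h1]
  calc (n : ℝ) = n * 1 := by ring
    _ ≤ n * (exp (2 * ∑ p ∈ n.primeFactors, 1 / (p : ℝ)) * ∏ p ∈ n.primeFactors, (1 - (p : ℝ)⁻¹)) := by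
        gcongr
    _ = _ := by ring

theorem stPh_22 (hC : StCn) : StPh := by
  obtain ⟨C, hC, h⟩ := hC
  refine ⟨exp (2 * (4 * C / log 2 ^ 2)), exp_pos _, ?_⟩
  intro n hn
  have h1 := ph22_rec hC n.primeFactors (fun p hp => (Nat.prime_of_mem_primeFactors hp).one_lt.le)
    (h n hn)
  calc (n : ℝ) ≤ exp (2 * ∑ p ∈ n.primeFactors, 1 / (p : ℝ)) * n.totient := ph22_tot n
    _ ≤ exp (2 * (4 * C / log 2 ^ 2)) * n.totient := by
        gcongr

end Pool.Agent.Lib.MP_2d8e53_nt.K
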