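import Pool.Agent.Lib.MP_2d8e53_nt.K.StmtsK95

set_option autoImplicit false

namespace Pool.Agent.Lib.MP_2d8e53_nt.K

open Finset Real Pool.Agent.Lib.MP_2d8e53_nt.W
open scoped Classical

theorem F_one_95 : F 1 = 1 := by
  simp [F, L1, L2]

theorem stSel_95 : StSel := by
  intro X n y hX hn
  by_cases hF : F (Lg n y) ≤ X
  · exact Or.inl hF
  right
  rw [not_le] at hF
  have hn0 : n ≠ 0 := by have := hn.1; omega
  -- the prime factors of `n` at least `y` where `F` is past `X`
  set S := n.primeFactors.filter (fun q : ℕ => y ≤ (q : ℝ) ∧ X < F (Up n q * q)) with hS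
  -- not empty
  have hne : S.Nonempty := by
    have hne' : (n.primeFactors.filter (fun q : ℕ => y ≤ (q : ℝ))).Nonempty := by
      by_contra hcon
      rw [not_nonempty_iff_eq_empty] at hcon
      rw [Lg, hcon, prod_empty, F_one_95] at hF
      omega
    set q0 := (n.primeFactors.filter (fun q : ℕ => y ≤ (q : ℝ))).min' hne' with hq0
    have hmem := min'_mem _ hne'
    rw [← hq0] at hmem
    have hmem' := mem_filter.1 hmem
    refine ⟨q0, mem_filter.2 ⟨hmem'.1, hmem'.2, ?_⟩⟩
    have heq : Up n q0 * q0 = Lg n y := by
      unfold Up Lg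
      have hins : n.primeFactors.filter (fun q : ℕ => y ≤ (q : ℝ)) =
          insert q0 (n.primeFactors.filter (fun q => q0 < q)) := by
        ext q
        simp only [mem_filter, mem_insert]
        constructor
        · rintro ⟨h1, h2⟩
          have := min'_le (n.primeFactors.filter (fun q : ℕ => y ≤ (q : ℝ))) q
            (mem_filter.2 ⟨h1, h2⟩)
          rw [← hq0] at this
          rcases this.eq_or_lt with h | h
          · exact Or.inl h.symm
          · exact Or.inr ⟨h1, h⟩
        · rintro (h | ⟨h1, h2⟩)
          · rw [h]; exact hmem'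
          · refine ⟨h1, hmem'.2.trans ?_⟩
            exact_mod_cast h2.le
      rw [hins, prod_insert (by simp), mul_comm]
    rw [heq]
    exact hF
  set p := S.max' hne with hp
  have hpS := max'_mem S hne
  rw [← hp] at hpS
  have hpS' := (mem_filter.1 hpS)
  have hpp : p.Prime := Nat.prime_of_mem_primeFactors hpS'.1
  have hpn : p ∣ n := Nat.dvd_of_mem_primeFactors hpS'.1
  refine ⟨p, ⟨hn, hpp, hpn, ?_, hpS'.2.2⟩, hpS'.2.1⟩
  by_cases he : (n.primeFactors.filter (fun q => p < q)).Nonempty
  · set p' := (n.primeFactors.filter (fun q => p < q)).min' he with hp'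
    have hmem := min'_mem _ he
    rw [← hp'] at hmem
    have hmem' := mem_filter.1 hmem
    have heq : Up n p = Up n p' * p' := by
      unfold Up
      have hins : n.primeFactors.filter (fun q => p < q) =
          insert p' (n.primeFactors.filter (fun q => p' < q)) := by
        ext q
        simp only [mem_filter, mem_insert]
        constructor
        · rintro ⟨h1, h2⟩
          have := min'_le _ q (mem_filter.2 ⟨h1, h2⟩)
          rw [← hp'] at this
          rcases this.eq_or_lt with h | h
          · exact Or.inl h.symm
          · exact Or.inr ⟨h1, h⟩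
        · rintro (h | ⟨h1, h2⟩)
          · rw [h]; exact hmem'
          · exact ⟨h1, hmem'.2.trans h2⟩
      rw [hins, prod_insert (by simp), mul_comm]
    rw [heq]
    by_contra hcon
    rw [not_le] at hcon
    have hin : p' ∈ S := mem_filter.2 ⟨hmem'.1, hpS'.2.1.trans (by exact_mod_cast hmem'.2.le), hcon⟩
    have := le_max' S p' hin
    rw [← hp] at this
    have h2 := hmem'.2
    omega
  · rw [not_nonempty_iff_eq_empty] at he
    rw [Up, he, prod_empty, F_one_95]
    exact hX

end Pool.Agent.Lib.MP_2d8e53_nt.K
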