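import Pool.Agent.Lib.MP_2d8e53_nt.W.Stmts95

/-!
# Carmichael numbers with `p + 1 ∣ n + 1`: few prime factors, bounded ratio `n / φ n`

Statements of the modules; text in the team store, K95.md.
-/

set_option autoImplicit false

namespace Pool.Agent.Lib.MP_2d8e53_nt.K

open Finset Real Pool.Agent.Lib.MP_2d8e53_nt.W
open scoped Classical

/-! ## Few prime factors -/

/-- The least common multiple of the `p - 1`, `p ∣ d` prime. -/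
noncomputable def L1 (d : ℕ) : ℕ := d.primeFactors.lcm fun p => p - 1

/-- The least common multiple of the `p + 1`, `p ∣ d` prime. -/
noncomputable def L2 (d : ℕ) : ℕ := d.primeFactors.lcm fun p => p + 1

/-- `d` times both. -/
noncomputable def F (d : ℕ) : ℕ := d * L1 d * L2 d

/-- Module CLS. The multiples of `d` lie in one class modulo `d lcm (L1 d, L2 d)`. -/
def StCls : Prop := ∀ X d : ℕ, 1 ≤ X → 1 ≤ d →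
  (((Icc 1 X).filter fun n => Rig n ∧ d ∣ n).card : ℝ) ≤ 2 * X / F d + 1

/-- Module TOP. -/
def StTop : Prop := ∀ n p : ℕ, Rig n → p.Prime → p ∣ n → p ^ 3 < 2 * n

/-- Module TAU. The divisor bound. -/
def StTau : Prop := ∀ η : ℝ, 0 < η → ∃ X₀ : ℕ, ∀ X : ℕ, X₀ ≤ X → ∀ m : ℕ, 1 ≤ m → m ≤ 2 * X →
  (m.divisors.card : ℝ) ≤ (X : ℝ) ^ η

/-- Module RAN. Few numbers whose prime factors are large and have `p - 1 ∣ m` (or `p + 1 ∣ m`). -/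
def StRan : Prop := ∀ θ η : ℝ, 0 < θ → θ ≤ 1 / 2 → 0 < η → ∃ X₀ : ℕ, ∀ X : ℕ, X₀ ≤ X →
  ∀ m : ℕ, 1 ≤ m → m ≤ 2 * X → ∀ T : ℝ, 1 ≤ T →
    (((Icc 1 ⌊T⌋₊).filter fun d => Squarefree d ∧
      ∀ p : ℕ, p.Prime → p ∣ d → exp (log X ^ θ) ≤ p ∧ p - 1 ∣ m).card : ℝ) ≤
        3 * T ^ (1 - θ + η) ∧
    (((Icc 1 ⌊T⌋₊).filter fun d => Squarefree d ∧
      ∀ p : ℕ, p.Prime → p ∣ d → exp (log X ^ θ) ≤ p ∧ p + 1 ∣ m).card : ℝ) ≤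
        3 * T ^ (1 - θ + η)

/-- Module N0. -/
def StN0 : Prop := ∀ θ η : ℝ, 0 < θ → θ ≤ 1 / 2 → 0 < η → ∃ X₀ : ℕ, ∀ X : ℕ, X₀ ≤ X →
  (((Icc 1 X).filter fun d => Squarefree d ∧
    (∀ p : ℕ, p.Prime → p ∣ d → exp (log X ^ θ) ≤ p) ∧ F d ≤ X).card : ℝ) ≤
      (X : ℝ) ^ (1 - θ + η)

/-- The product of the prime factors of `n` larger than `p`. -/
noncomputable def Up (n p : ℕ) : ℕ := ∏ q ∈ n.primeFactors.filter (fun q => p < q), q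

/-- The product of the prime factors of `n` which are at least `y`. -/
noncomputable def Lg (n : ℕ) (y : ℝ) : ℕ := ∏ q ∈ n.primeFactors.filter (fun q : ℕ => y ≤ (q : ℝ)), q

/-- `p` is the prime factor of `n` where `F` of the product of the largest prime factors passes
the bound `X`. -/
def Crs (X n p : ℕ) : Prop :=
  Rig n ∧ p.Prime ∧ p ∣ n ∧ F (Up n p) ≤ X ∧ X < F (Up n p * p)

/-- Module SEL. -/
def StSel : Prop := ∀ (X n : ℕ) (y : ℝ), 1 ≤ X → Rig n →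
  F (Lg n y) ≤ X ∨ ∃ p : ℕ, Crs X n p ∧ y ≤ p

/-- Module B1. -/
def StB1 : Prop := ∀ η ε : ℝ, 0 < η → 0 < ε → ∃ X₀ : ℕ, ∀ X : ℕ, X₀ ≤ X →
  (((Icc 1 X).filter fun n => ∃ p : ℕ, Crs X n p ∧ (X : ℝ) ^ η ≤ p).card : ℝ) ≤
    (X : ℝ) ^ (1 / 2 + ε)

/-- Module B2. -/
def StB2 : Prop := ∀ θ η : ℝ, 0 < θ → θ ≤ 1 / 2 → 0 < η → ∃ X₀ : ℕ, ∀ X : ℕ, X₀ ≤ X →
  (((Icc 1 X).filter fun n => ∃ p : ℕ, Crs X n p ∧ exp (log X ^ θ) ≤ p ∧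
    (p : ℝ) ≤ (X : ℝ) ^ η).card : ℝ) ≤ (X : ℝ) ^ (1 - θ + 3 * η)

/-- Module A. -/
def StA : Prop := ∀ θ δ η : ℝ, 0 < θ → θ < δ → δ ≤ 1 / 2 → 0 < η → ∃ X₀ : ℕ, ∀ X : ℕ, X₀ ≤ X →
  (((Icc 1 X).filter fun n => Rig n ∧ (n.primeFactors.card : ℝ) ≤ log X ^ (1 - δ) ∧
    F (Lg n (exp (log X ^ θ))) ≤ X).card : ℝ) ≤ (X : ℝ) ^ (1 - θ + 3 * η)

/-- The theorem on few prime factors. -/
def StFew : Prop := ∀ δ ε : ℝ, 0 < δ → δ ≤ 1 / 2 → 0 < ε → ∃ X₀ : ℕ, ∀ X : ℕ, X₀ ≤ X →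
  (((Icc 1 X).filter fun n => Rig n ∧ (n.primeFactors.card : ℝ) ≤ log X ^ (1 - δ)).card : ℝ) ≤
    (X : ℝ) ^ (1 - δ + ε)

/-! ## The ratio -/

/-- Module SV. A sieve of dimension two. -/
def StSv : Prop := ∃ C : ℝ, 0 < C ∧ ∀ (y : ℝ) (c : ℕ → ℕ), 2 ≤ y →
  (∀ l : ℕ, l.Prime → 2 < l → ¬ l ∣ c l) →
  (((Icc 1 ⌊y⌋₊).filter fun m : ℕ => ∀ l : ℕ, l.Prime → 2 < l → (l : ℝ) ^ 2 ≤ y →
    ¬ l ∣ m ∧ ¬ m ≡ c l [MOD l]).card : ℝ) ≤ C * y / log y ^ 2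

/-- Module CN. -/
def StCn : Prop := ∃ C : ℝ, 0 < C ∧ ∀ n : ℕ, Rig n → ∀ y : ℝ, 2 ≤ y →
  ((n.primeFactors.filter fun p : ℕ => (p : ℝ) ≤ y).card : ℝ) ≤ C * y / log y ^ 2

/-- Module PH. -/
def StPh : Prop := ∃ C : ℝ, 0 < C ∧ ∀ n : ℕ, Rig n → (n : ℝ) ≤ C * n.totient

end Pool.Agent.Lib.MP_2d8e53_nt.K
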