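import Pool.Agent.Lib.MP_2d8e53_nt.K.StmtsK95
import Pool.Agent.Lib.MP_0f858a_nt.KR.SV61

/-!
# Module SV: a sieve of dimension two
-/

set_option autoImplicit false

namespace Pool.Agent.Lib.MP_2d8e53_nt.K

open Finset Real
open scoped Classical

/-- Logarithms of large numbers, squared. -/
theorem log_sq_le_31 (y : ℝ) (hy : 1 ≤ y) : log y ^ 2 ≤ 4 * y := by
  have h0 : 0 < y := by linarith
  have h1 : log (√y) ≤ √y := (log_le_sub_one_of_pos (sqrt_pos.2 h0)).trans (by linarith)
  have h2 : log (√y) = log y / 2 := log_sqrt h0.le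
  have h3 : 0 ≤ log y := log_nonneg hy
  have h4 := sq_sqrt h0.le
  rw [h2] at h1
  nlinarith [sqrt_nonneg y]

theorem stSv_31 : StSv := by
  obtain ⟨C, hC1, hC⟩ := Pool.Agent.Lib.MP_0f858a_nt.KR.stSv_61
  have hl4 : 0 < log (4 : ℝ) := log_pos (by norm_num)
  set D : ℝ := C * 2 * log 4 with hD
  have hD0 : 0 < D := by positivity
  -- the constants
  set E : ℝ := Real.exp (2 * Pool.Agent.Lib.MP_0f858a_nt.KR.fD 4 1) with hE
  have hE0 : 0 < E := exp_pos _
  refine ⟨4 + 4 * D ^ 2 * E + 4 * (D + 1) ^ 2, by positivity, ?_⟩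
  intro y c hy hc
  set A := ((Icc 1 ⌊y⌋₊).filter fun m : ℕ => ∀ l : ℕ, l.Prime → 2 < l → (l : ℝ) ^ 2 ≤ y →
    ¬ l ∣ m ∧ ¬ m ≡ c l [MOD l]) with hA
  have hy0 : 0 < y := by linarith
  have hly : 0 < log y := log_pos (by linarith)
  have hfl : (⌊y⌋₊ : ℝ) ≤ y := Nat.floor_le hy0.le
  have hAle : (A.card : ℝ) ≤ y := by
    have h1 : A.card ≤ (Icc 1 ⌊y⌋₊).card := card_filter_le _ _
    rw [Nat.card_Icc, Nat.add_sub_cancel] at h1
    calc (A.card : ℝ) ≤ ⌊y⌋₊ := by exact_mod_cast h1
      _ ≤ y := hfl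
  have hsq := log_sq_le_31 y (by linarith)
  rw [le_div_iff₀ (by positivity)]
  by_cases hbig : log (⌊y⌋₊ : ℝ) < D
  · -- small `y`
    have h1 : log y ≤ D + 1 := by
      have h2 : y ≤ 2 * ⌊y⌋₊ := by
        have h3 : y < ⌊y⌋₊ + 1 := Nat.lt_floor_add_one y
        have h4 : (1 : ℝ) ≤ ⌊y⌋₊ := by
          have : 1 ≤ ⌊y⌋₊ := Nat.le_floor (by push_cast; linarith)
          exact_mod_cast this
        linarith
      have h5 : (0 : ℝ) < ⌊y⌋₊ := by linarith
      calc log y ≤ log (2 * ⌊y⌋₊) := log_le_log hy0 h2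
        _ = log 2 + log ⌊y⌋₊ := log_mul (by norm_num) h5.ne'
        _ ≤ D + 1 := by
          have := log_two_lt_d9
          linarith
    calc (A.card : ℝ) * log y ^ 2 ≤ y * (D + 1) ^ 2 := by gcongr
      _ ≤ _ := by
        have : 0 ≤ (4 + 4 * D ^ 2 * E + 3 * (D + 1) ^ 2) * y := by positivity
        nlinarith
  push Not at hbig
  set X := ⌊y⌋₊ with hX
  set S := A.filter fun m => m < X with hS
  have hcard : (A.card : ℝ) ≤ S.card + 1 := by
    have h1 : A ⊆ insert X S := by
      intro m hm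
      rw [mem_insert, hS, mem_filter]
      have h2 := hm
      rw [hA, mem_filter, mem_Icc] at h2
      rcases h2.1.2.lt_or_eq with h3 | h3
      · exact Or.inr ⟨hm, h3⟩
      · exact Or.inl h3
    have h2 := (card_le_card h1).trans (card_insert_le _ _)
    exact_mod_cast h2
  have hX0 : (0 : ℝ) < X := by
    by_contra h
    have h1 : (X : ℝ) = 0 := le_antisymm (not_lt.1 h) (Nat.cast_nonneg _)
    rw [h1, log_zero] at hbig
    linarith
  have hmain := hC 2 4 X 1 S le_rfl (by norm_num) one_ne_zero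
    (by push_cast; exact hbig)
    (fun n hn => (mem_filter.1 hn).2)
    (by
      intro l hl h4 hlX _
      have h2l : (l : ℝ) ^ 2 ≤ y := by
        have : ((l ^ 2 : ℕ) : ℝ) ≤ X := by exact_mod_cast hlX
        push_cast at this
        linarith
      refine ⟨{0, (c l : ZMod l)}, ?_, ?_⟩
      · apply card_pair
        intro h
        exact hc l hl (by omega) ((ZMod.natCast_eq_zero_iff _ _).1 h.symm)
      · intro n hn
        have h1 := (mem_filter.1 (mem_filter.1 hn).1).2 l hl (by omega) h2l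
        rw [mem_insert, mem_singleton, not_or]
        refine ⟨fun h => h1.1 ((ZMod.natCast_eq_zero_iff _ _).1 h), fun h => h1.2 ?_⟩
        exact (ZMod.natCast_eq_natCast_iff _ _ _).1 h)
  push_cast at hmain
  rw [← hD, ← hE] at hmain
  have hlX : 0 < log (X : ℝ) := by linarith
  have hlyX : log y ≤ 2 * log X := by
    have h3 : y < X + 1 := Nat.lt_floor_add_one y
    have h2 : (2 : ℝ) ≤ X := by
      have : 2 ≤ X := Nat.le_floor (by push_cast; linarith)
      exact_mod_cast this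
    have h4 : y ≤ (X : ℝ) ^ 2 := by nlinarith
    calc log y ≤ log ((X : ℝ) ^ 2) := log_le_log hy0 h4
      _ = 2 * log X := by rw [log_pow]; push_cast; ring
  have h5 : (S.card : ℝ) * log y ^ 2 ≤ 4 * D ^ 2 * E * y := by
    calc (S.card : ℝ) * log y ^ 2 ≤ (X * (D / log X) ^ 2 * E) * (2 * log X) ^ 2 := by
          apply mul_le_mul hmain
          · exact pow_le_pow_left₀ hly.le hlyX 2
          · positivity
          · positivity
      _ = 4 * D ^ 2 * E * X := by
          field_simp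
          ring
      _ ≤ _ := mul_le_mul_of_nonneg_left hfl (by positivity)
  have h6 : (A.card : ℝ) * log y ^ 2 ≤ (S.card + 1) * log y ^ 2 :=
    mul_le_mul_of_nonneg_right hcard (by positivity)
  have h7 : 0 ≤ 4 * (D + 1) ^ 2 * y := by positivity
  nlinarith

end Pool.Agent.Lib.MP_2d8e53_nt.K
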