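import Pool.Agent.Lib.MP_2d8e53_nt.K.StmtsK95
import Pool.Agent.Lib.MP_a17b09_nt.Divisor

/-!
# Module TAU: the divisor bound
-/

set_option autoImplicit false

namespace Pool.Agent.Lib.MP_2d8e53_nt.K

open Finset Real Pool.Agent.Lib.MP_2d8e53_nt.W
open scoped Classical

/-- A constant factor is absorbed by a small power. -/
lemma const_le_rpow46 (C e : ℝ) (he : 0 < e) :
    ∃ X₀ : ℕ, 1 ≤ X₀ ∧ ∀ X : ℕ, X₀ ≤ X → C ≤ (X : ℝ) ^ e := by
  have h := (tendsto_rpow_atTop he).comp (tendsto_natCast_atTop_atTop (R := ℝ))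
  obtain ⟨N, hN⟩ := (Filter.eventually_atTop.mp (h.eventually_ge_atTop C))
  exact ⟨max N 1, le_max_right _ _, fun X hX => hN X (le_trans (le_max_left _ _) hX)⟩

theorem stTau_46 : StTau := by
  intro η hη
  obtain ⟨C, hC1, hC⟩ := Pool.Agent.Lib.MP_a17b09_nt.card_divisors_le (η / 2) (by positivity)
  obtain ⟨X₀, hX1, hX⟩ := const_le_rpow46 (C * (2 : ℝ) ^ (η / 2)) (η / 2) (by positivity)
  refine ⟨X₀, fun X hXX m hm hmX => ?_⟩
  have hXpos : (0 : ℝ) < X := by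
    have : 1 ≤ X := hX1.trans hXX
    exact_mod_cast this
  have hm' : (m : ℝ) ≤ 2 * X := by exact_mod_cast hmX
  calc (m.divisors.card : ℝ) ≤ C * (m : ℝ) ^ (η / 2) := hC m hm
    _ ≤ C * (2 * X : ℝ) ^ (η / 2) := by gcongr
    _ = (C * (2 : ℝ) ^ (η / 2)) * (X : ℝ) ^ (η / 2) := by
        rw [Real.mul_rpow (by norm_num) hXpos.le]; ring
    _ ≤ (X : ℝ) ^ (η / 2) * (X : ℝ) ^ (η / 2) := by
        gcongr
        exact hX X hXX
    _ = (X : ℝ) ^ η := by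
        rw [← Real.rpow_add hXpos]; congr 1; ring

end Pool.Agent.Lib.MP_2d8e53_nt.K
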